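import Mathlib

/-!
# SHC.Semi: semiprimitive exponential sums over finite fields

`L` a finite field with `q = q0 ^ (4 m)` elements, `R = q0 ^ (2 m)`, `ψ` a primitive additive
character of `L` with `ψ (x ^ p) = ψ x`. For `k ∣ q0 + 1` and `z ≠ 0`:
`∑ x, ψ (z x ^ k) = R (1 - k [z is a k-th power])`.
-/

namespace SHC

open Finset

section Group

variable {G : Type*} [CommGroup G] [IsCyclic G] [Fintype G] [DecidableEq G]

theorem card_pow_one {M N : ℕ} (h : M * N = Fintype.card G) :
    (univ.filter fun y : G => y ^ M = 1).card = M := by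
  have h1 := IsCyclic.card_powMonoidHom_ker G M
  rw [Nat.card_eq_fintype_card (α := G), ← h, Nat.gcd_eq_right (Dvd.intro _ rfl)] at h1
  refine Eq.trans ?_ h1
  rw [Nat.card_eq_fintype_card, Fintype.card_subtype]
  congr 1
  ext y
  rw [mem_filter, mem_filter, MonoidHom.mem_ker, powMonoidHom_apply]

theorem pow_eq_iff {M N : ℕ} (h : M * N = Fintype.card G) (w : G) :
    (∃ y : G, y ^ M = w) ↔ w ^ N = 1 := by
  constructor
  · rintro ⟨y, rfl⟩
    rw [← pow_mul, h, pow_card_eq_one]
  · intro hw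
    have hle : (powMonoidHom M : G →* G).range ≤ (powMonoidHom N : G →* G).ker := by
      rintro _ ⟨y, rfl⟩
      rw [MonoidHom.mem_ker, powMonoidHom_apply, powMonoidHom_apply, ← pow_mul, h, pow_card_eq_one]
    have hpos : 0 < Fintype.card G := Fintype.card_pos
    have hM : 0 < M := Nat.pos_of_ne_zero fun h0 => by rw [h0, zero_mul] at h; omega
    have hc : Nat.card (powMonoidHom N : G →* G).ker ≤
        Nat.card (powMonoidHom M : G →* G).range := by
      rw [IsCyclic.card_powMonoidHom_ker, IsCyclic.card_powMonoidHom_range,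
        Nat.card_eq_fintype_card, ← h, Nat.gcd_eq_right (Dvd.intro_left _ rfl),
        Nat.gcd_eq_right (Dvd.intro _ rfl), Nat.mul_div_cancel_left _ hM]
    have heq := Subgroup.eq_of_le_of_card_ge hle hc
    have hw' : w ∈ (powMonoidHom N : G →* G).ker := hw
    rw [← heq] at hw'
    exact hw'

theorem card_pow_eq {M N : ℕ} (h : M * N = Fintype.card G) (w : G) :
    (univ.filter fun y : G => y ^ M = w).card = if w ^ N = 1 then M else 0 := by
  by_cases hw : w ^ N = 1
  · rw [if_pos hw]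
    obtain ⟨y0, hy0⟩ := (pow_eq_iff h w).2 hw
    refine Eq.trans ?_ (card_pow_one h)
    refine card_bij (fun y _ => y * y0⁻¹) ?_ ?_ ?_
    · intro y hy
      rw [mem_filter] at hy ⊢
      refine ⟨mem_univ _, ?_⟩
      rw [mul_pow, inv_pow, hy.2, hy0, mul_inv_cancel]
    · intro a _ b _ hab
      exact mul_right_cancel hab
    · intro b hb
      rw [mem_filter] at hb
      refine ⟨b * y0, ?_, by simp⟩
      rw [mem_filter]
      refine ⟨mem_univ _, ?_⟩
      rw [mul_pow, hb.2, hy0, one_mul]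
  · rw [if_neg hw, card_eq_zero, filter_eq_empty_iff]
    intro y _ hy
    exact hw ((pow_eq_iff h w).1 ⟨y, hy⟩)

theorem sum_pow_eq {M N : ℕ} (h : M * N = Fintype.card G) (f : G → ℂ) :
    ∑ y, f (y ^ M) = M * ∑ w, if w ^ N = 1 then f w else 0 := by
  have h1 : ∑ y, f (y ^ M) = ∑ w, ∑ y ∈ univ.filter (fun y : G => y ^ M = w), f (y ^ M) :=
    (sum_fiberwise univ (fun y : G => y ^ M) (fun y => f (y ^ M))).symm
  rw [h1, mul_sum]
  refine sum_congr rfl fun w _ => ?_
  have h2 : ∑ y ∈ univ.filter (fun y : G => y ^ M = w), f (y ^ M) =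
      ∑ y ∈ univ.filter (fun y : G => y ^ M = w), f w :=
    sum_congr rfl fun y hy => by rw [(mem_filter.1 hy).2]
  rw [h2, sum_const, card_pow_eq h, nsmul_eq_mul]
  by_cases hw : w ^ N = 1
  · rw [if_pos hw, if_pos hw]
  · rw [if_neg hw, if_neg hw, Nat.cast_zero, zero_mul, mul_zero]

end Group

section Field

variable {L : Type*} [Field L] [Fintype L] [DecidableEq L]

theorem sum_units (f : L → ℂ) : ∑ x, f x = f 0 + ∑ u : Lˣ, f u := by
  rw [Fintype.sum_eq_add_sum_subtype_ne f 0]
  congr 1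
  exact (Fintype.sum_equiv unitsEquivNeZero (fun u : Lˣ => f u) (fun x => f x) fun u => rfl).symm

/-- The exponential sum `∑ x, ψ (z x ^ k)`. -/
noncomputable def SS (ψ : AddChar L ℂ) (k : ℕ) (z : L) : ℂ := ∑ x, ψ (z * x ^ k)

/-- A primitive character which is invariant under the Frobenius map. -/
structure Adm (p : ℕ) (ψ : AddChar L ℂ) : Prop where
  prim : ψ.IsPrimitive
  frob : ∀ x, ψ (x ^ p) = ψ x

variable {p : ℕ} {ψ : AddChar L ℂ}

theorem Adm.frob_pow (h : Adm p ψ) (a : ℕ) (x : L) : ψ (x ^ p ^ a) = ψ x := by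
  induction a with
  | zero => rw [pow_zero, pow_one]
  | succ a ih => rw [pow_succ, pow_mul, h.frob, ih]

variable [Fact p.Prime] [CharP L p]

theorem pow_bij (a : ℕ) : Function.Bijective fun x : L => x ^ p ^ a := by
  have : ExpChar L p := ExpChar.prime Fact.out
  refine (Finite.injective_iff_bijective).1 fun x y hxy => ?_
  exact iterateFrobenius_inj L p a (by simpa [iterateFrobenius_def] using hxy)

theorem norm_SS (h : Adm p ψ) (a : ℕ) (z : L) :
    SS ψ (p ^ a + 1) z * (starRingEnd ℂ) (SS ψ (p ^ a + 1) z) =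
      ∑ x, ψ (z * x ^ (p ^ a + 1)) *
        (if z ^ p ^ a * x ^ p ^ (2 * a) + z * x = 0 then (Fintype.card L : ℂ) else 0) := by
  unfold SS
  rw [map_sum, sum_mul_sum, sum_comm]
  have h1 : ∀ y : L, ∑ x, ψ (z * x ^ (p ^ a + 1)) *
      (starRingEnd ℂ) (ψ (z * y ^ (p ^ a + 1))) =
      ∑ x, ψ (z * x ^ (p ^ a + 1)) * ψ ((z ^ p ^ a * x ^ p ^ (2 * a) + z * x) * y ^ p ^ a) := by
    intro y
    rw [← Equiv.sum_comp (Equiv.addRight y)]
    refine sum_congr rfl fun x _ => ?_
    rw [← AddChar.map_neg_eq_conj, Equiv.coe_addRight, ← AddChar.map_add_eq_mul,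
      ← AddChar.map_add_eq_mul]
    have e1 : z * (x + y) ^ (p ^ a + 1) + -(z * y ^ (p ^ a + 1)) =
        z * x ^ (p ^ a + 1) + (z * x ^ p ^ a * y + z * x * y ^ p ^ a) := by
      rw [pow_succ (x + y), add_pow_char_pow x y, pow_succ, pow_succ]
      ring
    rw [e1, AddChar.map_add_eq_mul, AddChar.map_add_eq_mul _ (z * x ^ p ^ a * y),
      ← h.frob_pow a (z * x ^ p ^ a * y), ← AddChar.map_add_eq_mul, ← AddChar.map_add_eq_mul]
    congr 1
    have e2 : (x ^ p ^ a) ^ p ^ a = x ^ p ^ (2 * a) := by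
      rw [← pow_mul, ← pow_add, two_mul]
    rw [mul_pow, mul_pow, e2]
    ring
  simp only [h1]
  rw [sum_comm]
  refine sum_congr rfl fun x _ => ?_
  rw [← mul_sum]
  congr 1
  have h2 : ∑ y : L, ψ ((z ^ p ^ a * x ^ p ^ (2 * a) + z * x) * y ^ p ^ a) =
      ∑ y : L, ψ (y * (z ^ p ^ a * x ^ p ^ (2 * a) + z * x)) := by
    refine Fintype.sum_bijective _ (pow_bij (p := p) a) _ _ fun y => ?_
    rw [mul_comm]
  rw [h2, AddChar.sum_mulShift _ h.prim]
  push_cast
  rfl


/-- `-1` to an even power, or in characteristic two. -/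
theorem neg_one_pow_eq {R : ℕ} (hR : p = 2 ∨ Odd R) (T : ℕ) : ((-1 : L) ^ (R + 1)) ^ T = 1 := by
  have h1 : (-1 : L) ^ (R + 1) = 1 := by
    rcases hR with h2 | h2
    · subst h2
      have : (-1 : L) = 1 := by
        have h3 : (2 : L) = 0 := by
          have := CharP.cast_eq_zero L 2
          exact_mod_cast this
        linear_combination -h3
      rw [this, one_pow]
    · exact (h2.add_one).neg_one_pow
  rw [h1, one_pow]

/-- The parameters: `q0 = p ^ a = u + 1`, `R = q0 ^ (2m) = u (u + 2) T + 1`, `#L = R ^ 2`. -/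
structure Par (L : Type*) [Field L] [Fintype L] (p a u R T : ℕ) : Prop where
  hu : p ^ a = u + 1
  hu1 : 1 ≤ u
  hR : R = u * (u + 2) * T + 1
  hT : 1 ≤ T
  hodd : p = 2 ∨ Odd R
  hcard : Fintype.card L = R * R

variable {a u R T : ℕ}

theorem Par.card_units (P : Par L p a u R T) :
    (u + 2) * (u * (T * (R + 1))) = Fintype.card Lˣ := by
  rw [Fintype.card_units, P.hcard]
  have h : R * R = (u + 2) * (u * (T * (R + 1))) + 1 := by
    have := P.hR
    calc R * R = (u * (u + 2) * T + 1) * R := by rw [← this]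
      _ = (u * (u + 2) * T) * R + R := by ring
      _ = (u * (u + 2) * T) * R + (u * (u + 2) * T + 1) := by rw [← this]
      _ = (u + 2) * (u * (T * (R + 1))) + 1 := by ring
  rw [h]
  rfl

theorem Par.W_zero (P : Par L p a u R T) {z x : L} (hz : z ≠ 0) (hx : x ≠ 0)
    (h : z ^ p ^ a * x ^ p ^ (2 * a) + z * x = 0) : z ^ (u * (T * (R + 1))) = 1 := by
  have e0 : p ^ (2 * a) = u * (u + 2) + 1 := by
    rw [two_mul, pow_add, P.hu]
    ring
  rw [P.hu, e0, pow_succ, pow_succ] at h
  have h1 : z ^ u * x ^ (u * (u + 2)) = -1 := by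
    have h2 : z * x * (z ^ u * x ^ (u * (u + 2)) + 1) = 0 := by linear_combination h
    have h3 := (mul_eq_zero.1 h2).resolve_left (mul_ne_zero hz hx)
    linear_combination h3
  have h4 : (z ^ u * x ^ (u * (u + 2))) ^ (T * (R + 1)) = 1 := by
    rw [h1, mul_comm T, pow_mul]
    exact neg_one_pow_eq P.hodd T
  rw [mul_pow, ← pow_mul, ← pow_mul] at h4
  have h5 : x ^ (u * (u + 2) * (T * (R + 1))) = 1 := by
    have e : u * (u + 2) * (T * (R + 1)) = Fintype.card L - 1 := by
      rw [← Fintype.card_units, ← P.card_units]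
      ring
    rw [e]
    exact FiniteField.pow_card_sub_one_eq_one x hx
  rwa [h5, mul_one] at h4

theorem Par.card_W (P : Par L p a u R T) :
    (univ.filter fun x : L => x ^ p ^ (2 * a) + x = 0).card = (u + 1) ^ 2 := by
  have e0 : p ^ (2 * a) = u * (u + 2) + 1 := by
    rw [two_mul, pow_add, P.hu]
    ring
  have hc : (u * (u + 2)) * (T * (R + 1)) = Fintype.card Lˣ := by
    rw [← P.card_units]
    ring
  have h1 := card_pow_eq hc (-1 : Lˣ)
  have h2 : (-1 : Lˣ) ^ (T * (R + 1)) = 1 := by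
    ext
    push_cast
    rw [mul_comm T, pow_mul]
    exact neg_one_pow_eq P.hodd T
  rw [if_pos h2] at h1
  have h3 : (univ.filter fun x : L => x ^ p ^ (2 * a) + x = 0) =
      insert 0 ((univ.filter fun y : Lˣ => y ^ (u * (u + 2)) = -1).map
        ⟨Units.val, Units.val_injective⟩) := by
    ext x
    rw [mem_filter, mem_insert, mem_map]
    rw [e0, pow_succ]
    constructor
    · rintro ⟨-, hx⟩
      by_cases hx0 : x = 0
      · exact Or.inl hx0
      · refine Or.inr ⟨Units.mk0 x hx0, ?_, rfl⟩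
        rw [mem_filter]
        refine ⟨mem_univ _, ?_⟩
        ext
        push_cast
        rw [Units.val_mk0]
        have h4 : x * (x ^ (u * (u + 2)) + 1) = 0 := by linear_combination hx
        have h5 := (mul_eq_zero.1 h4).resolve_left hx0
        linear_combination h5
    · rintro (rfl | ⟨y, hy, rfl⟩)
      · refine ⟨mem_univ _, ?_⟩
        rw [mul_zero, add_zero]
      · refine ⟨mem_univ _, ?_⟩
        rw [mem_filter] at hy
        have h6 := congrArg Units.val hy.2
        push_cast at h6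
        change (y : L) ^ (u * (u + 2)) * (y : L) + (y : L) = 0
        rw [h6]
        ring
  rw [h3, card_insert_of_notMem, card_map, h1]
  · ring
  · intro h7
    obtain ⟨y, -, hy⟩ := mem_map.1 h7
    exact y.ne_zero hy

theorem Par.exists_c (P : Par L p a u R T) : ∃ c : L, c + c ^ p ^ a = 1 := by
  by_cases h2 : p = 2
  · -- characteristic two
    have hneg : ∀ x : L, -x = x := by
      intro x
      have h3 : (2 : L) = 0 := by
        have := CharP.cast_eq_zero L p
        rw [h2] at this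
        exact_mod_cast this
      linear_combination -x * h3
    have hc1 : (u * (u + 2)) * (T * (R + 1)) = Fintype.card Lˣ := by
      rw [← P.card_units]
      ring
    have hc2 : u * ((u + 2) * (T * (R + 1))) = Fintype.card Lˣ := by
      rw [← P.card_units]
      ring
    have h4 := card_pow_one hc1
    have h5 := card_pow_one hc2
    have h6 : u < u * (u + 2) := by nlinarith [P.hu1]
    have h7 : ∃ y : Lˣ, y ^ (u * (u + 2)) = 1 ∧ y ^ u ≠ 1 := by
      by_contra hcon
      push Not at hcon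
      have h8 : (univ.filter fun y : Lˣ => y ^ (u * (u + 2)) = 1) ⊆
          univ.filter fun y : Lˣ => y ^ u = 1 := by
        intro y hy
        rw [mem_filter] at hy ⊢
        exact ⟨hy.1, hcon y hy.2⟩
      have h9 := card_le_card h8
      rw [h4, h5] at h9
      omega
    obtain ⟨y, hy1, hy2⟩ := h7
    have hp : p ^ a * p ^ a = u * (u + 2) + 1 := by
      rw [P.hu]
      ring
    have hx1 : ((y : L) ^ p ^ a) ^ p ^ a = y := by
      rw [← pow_mul, hp, pow_succ]
      have h6 := congrArg Units.val hy1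
      push_cast at h6
      rw [h6, one_mul]
    have hx2 : (y : L) + (y : L) ^ p ^ a ≠ 0 := by
      intro h10
      apply hy2
      ext
      push_cast
      rw [P.hu, pow_succ] at h10
      have h11 : (y : L) * ((y : L) ^ u + 1) = 0 := by linear_combination h10
      have h12 := (mul_eq_zero.1 h11).resolve_left y.ne_zero
      have h13 := hneg 1
      linear_combination h12 + h13
    set s : L := (y : L) + (y : L) ^ p ^ a with hs
    have hs1 : s ^ p ^ a = s := by
      rw [hs, add_pow_char_pow, hx1, add_comm]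
    refine ⟨(y : L) / s, ?_⟩
    rw [div_pow, hs1, ← add_div, ← hs, div_self hx2]
  · have h2' : (2 : L) ≠ 0 := by
      intro h3
      have h4 : ((2 : ℕ) : L) = 0 := by exact_mod_cast h3
      rw [CharP.cast_eq_zero_iff L p] at h4
      exact h2 ((Nat.prime_dvd_prime_iff_eq Fact.out Nat.prime_two).1 h4)
    refine ⟨2⁻¹, ?_⟩
    have h5 : (2 : L) ^ p ^ a = 2 := by
      rw [← one_add_one_eq_two, add_pow_char_pow, one_pow]
    rw [inv_pow, h5]
    field_simp
    norm_num

theorem Par.psi_one (P : Par L p a u R T) (h : Adm p ψ) {b : L} (hb : b ^ p ^ a = -b) :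
    ψ b = 1 := by
  obtain ⟨c, hc⟩ := P.exists_c
  have h1 : b = b * c + -((b * c) ^ p ^ a) := by
    rw [mul_pow, hb]
    linear_combination -b * hc
  rw [h1, AddChar.map_add_eq_mul, AddChar.map_neg_eq_inv, h.frob_pow]
  refine mul_inv_cancel₀ fun h0 => ?_
  have h2 := AddChar.map_add_eq_mul ψ (b * c) (-(b * c))
  rw [h0, zero_mul, add_neg_cancel, AddChar.map_zero_eq_one] at h2
  exact one_ne_zero h2


/-- The sum over the units. -/
theorem SS_units (ψ : AddChar L ℂ) {k : ℕ} (hk : k ≠ 0) (z : L) :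
    SS ψ k z = 1 + ∑ x : Lˣ, ψ (z * (x : L) ^ k) := by
  unfold SS
  rw [sum_units, zero_pow hk, mul_zero, AddChar.map_zero_eq_one]

theorem isIntegral_char (r : ℕ) [Fact r.Prime] [CharP L r] (ψ : AddChar L ℂ) (x : L) :
    IsIntegral ℤ (ψ x) := by
  have h : (ψ x) ^ r = 1 := by
    rw [← AddChar.map_nsmul_eq_pow, ← Nat.cast_smul_eq_nsmul L, CharP.cast_eq_zero, zero_smul,
      AddChar.map_zero_eq_one]
  exact IsIntegral.of_pow (Fact.out : r.Prime).pos (by rw [h]; exact isIntegral_one)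

theorem int_dvd_of_isIntegral {A K : ℤ} (hK : K ≠ 0) {w : ℂ} (hw : IsIntegral ℤ w)
    (h : (A : ℂ) = K * w) : K ∣ A := by
  have h1 : w = ((((A : ℚ) / K : ℚ)) : ℂ) := by
    push_cast
    rw [h]
    field_simp
  rw [h1] at hw
  have h2 : IsIntegral ℤ ((A : ℚ) / K) := by
    have h3 : (((A : ℚ) / K : ℚ) : ℂ) = algebraMap ℚ ℂ ((A : ℚ) / K) := rfl
    rw [h3, isIntegral_algebraMap_iff (algebraMap ℚ ℂ).injective] at hw
    exact hw
  obtain ⟨n, hn⟩ := IsIntegrallyClosed.isIntegral_iff.1 h2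
  refine ⟨n, ?_⟩
  have h4 : (A : ℚ) = K * n := by
    have h5 : (n : ℚ) = (A : ℚ) / K := hn
    rw [h5]
    field_simp
  exact_mod_cast h4

theorem Par.neg_one (P : Par L p a u R T) : ∃ w : Lˣ, w ^ (u + 2) = -1 := by
  refine (pow_eq_iff P.card_units (-1 : Lˣ)).2 ?_
  ext
  push_cast
  have : u * (T * (R + 1)) = (R + 1) * (T * u) := by ring
  rw [this, pow_mul]
  exact neg_one_pow_eq P.hodd _

theorem Par.SS_real (P : Par L p a u R T) (ψ : AddChar L ℂ) (z : L) :
    (starRingEnd ℂ) (SS ψ (u + 2) z) = SS ψ (u + 2) z := by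
  obtain ⟨w, hw⟩ := P.neg_one
  unfold SS
  rw [map_sum]
  refine Fintype.sum_bijective (fun x : L => (w : L) * x) (mulLeft_bijective₀ _ w.ne_zero) _ _
    fun x => ?_
  rw [← AddChar.map_neg_eq_conj]
  congr 1
  have h1 := congrArg Units.val hw
  push_cast at h1
  rw [mul_pow, h1]
  ring

theorem Par.SS_dvd (P : Par L p a u R T) (ψ : AddChar L ℂ) (z : Lˣ) {A : ℤ}
    (h : SS ψ (u + 2) (z : L) = A) : ((u + 2 : ℕ) : ℤ) ∣ A - 1 := by
  rw [SS_units ψ (by omega)] at h
  have h1 := sum_pow_eq P.card_units (fun w : Lˣ => ψ ((z : L) * (w : L)))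
  simp only [Units.val_pow_eq_pow_val] at h1
  rw [h1] at h
  refine int_dvd_of_isIntegral (by positivity) (w := ∑ w : Lˣ,
    if w ^ (u * (T * (R + 1))) = 1 then ψ ((z : L) * (w : L)) else 0) ?_ ?_
  · refine IsIntegral.sum _ fun w _ => ?_
    by_cases hw : w ^ (u * (T * (R + 1))) = 1
    · rw [if_pos hw]
      exact isIntegral_char p ψ _
    · rw [if_neg hw]
      exact isIntegral_zero
  · push_cast
    rw [← h]
    push_cast
    ring

/-- The semiprimitive case, `k = q0 + 1`. -/
theorem Par.SS_eq (P : Par L p a u R T) (h : Adm p ψ) (z : Lˣ) :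
    SS ψ (u + 2) (z : L) = R * (1 - (u + 2) * (if z ^ (u * (T * (R + 1))) = 1 then 1 else 0)) := by
  have hu := P.hu1
  have hk : p ^ a + 1 = u + 2 := by rw [P.hu]
  have hn := norm_SS h a (z : L)
  rw [hk, P.SS_real] at hn
  by_cases hz : z ^ (u * (T * (R + 1))) = 1
  · rw [if_pos hz]
    obtain ⟨w, hw⟩ := (pow_eq_iff P.card_units z).2 hz
    have h1 : SS ψ (u + 2) (z : L) = SS ψ (u + 2) 1 := by
      unfold SS
      refine Fintype.sum_bijective (fun x : L => (w : L) * x) (mulLeft_bijective₀ _ w.ne_zero) _ _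
        fun x => ?_
      rw [← hw]
      push_cast
      rw [mul_pow, one_mul]
    have hn1 := norm_SS h a (1 : L)
    rw [hk, P.SS_real] at hn1
    have h2 : ∑ x : L, ψ (1 * x ^ (u + 2)) *
        (if (1 : L) ^ p ^ a * x ^ p ^ (2 * a) + 1 * x = 0 then (Fintype.card L : ℂ) else 0) =
        ((R * (u + 1) : ℕ) : ℂ) ^ 2 := by
      have h3 : ∀ x : L, ψ (1 * x ^ (u + 2)) *
          (if (1 : L) ^ p ^ a * x ^ p ^ (2 * a) + 1 * x = 0 then (Fintype.card L : ℂ) else 0) =
          if x ^ p ^ (2 * a) + x = 0 then (Fintype.card L : ℂ) else 0 := by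
        intro x
        rw [one_pow, one_mul, one_mul, one_mul]
        by_cases hx : x ^ p ^ (2 * a) + x = 0
        · rw [if_pos hx]
          have h4 : ψ (x ^ (u + 2)) = 1 := by
            refine P.psi_one h ?_
            rw [← hk, ← pow_mul, add_mul, one_mul, pow_add, ← pow_add p a a, ← two_mul]
            have h5 : x ^ p ^ (2 * a) = -x := by linear_combination hx
            rw [h5, pow_succ]
            ring
          rw [h4, one_mul]
        · rw [if_neg hx, mul_zero]
      rw [sum_congr rfl fun x _ => h3 x, ← sum_filter, sum_const, P.card_W, P.hcard]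
      rw [nsmul_eq_mul]
      push_cast
      ring
    rw [h2, ← pow_two, sq_eq_sq_iff_eq_or_eq_neg] at hn1
    rw [h1]
    rcases hn1 with h6 | h6
    · exfalso
      have h7 : SS ψ (u + 2) ((1 : Lˣ) : L) = ((R * (u + 1) : ℤ) : ℂ) := by
        rw [Units.val_one, h6]
        push_cast
        ring
      have h8 := P.SS_dvd ψ 1 h7
      have h9 : (R : ℤ) * (u + 1) - 1 = (u + 2) * ((u : ℤ) * T * (u + 1) + 1) - 2 := by
        have := P.hR
        rw [this]
        push_cast
        ring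
      rw [h9] at h8
      have h10 : ((u + 2 : ℕ) : ℤ) ∣ 2 := by
        have h11 : ((u + 2 : ℕ) : ℤ) ∣ (u + 2) * ((u : ℤ) * T * (u + 1) + 1) :=
          Dvd.intro _ (by push_cast; rfl)
        have h12 := dvd_sub h11 h8
        rwa [sub_sub_cancel] at h12
      have := Int.le_of_dvd (by norm_num) h10
      push_cast at this
      omega
    · rw [h6]
      push_cast
      ring
  · rw [if_neg hz]
    have h2 : ∑ x : L, ψ ((z : L) * x ^ (u + 2)) *
        (if (z : L) ^ p ^ a * x ^ p ^ (2 * a) + z * x = 0 then (Fintype.card L : ℂ) else 0) =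
        (R : ℂ) ^ 2 := by
      rw [sum_eq_single (0 : L)]
      · have e : (z : L) ^ p ^ a * (0 : L) ^ p ^ (2 * a) + z * 0 = 0 := by
          rw [zero_pow (pow_ne_zero _ (Fact.out : p.Prime).ne_zero), mul_zero, mul_zero, add_zero]
        rw [if_pos e, zero_pow (by omega), mul_zero, AddChar.map_zero_eq_one, P.hcard]
        push_cast
        ring
      · intro x _ hx
        rw [if_neg, mul_zero]
        intro h3
        have h4 := P.W_zero z.ne_zero hx h3
        apply hz
        ext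
        push_cast
        exact h4
      · intro h3
        exact absurd (mem_univ _) h3
    rw [h2, ← pow_two, sq_eq_sq_iff_eq_or_eq_neg] at hn
    rcases hn with h6 | h6
    · rw [h6]
      push_cast
      ring
    · exfalso
      have h7 : SS ψ (u + 2) (z : L) = ((-R : ℤ) : ℂ) := by
        rw [h6]
        push_cast
        rfl
      have h8 := P.SS_dvd ψ z h7
      have h9 : -(R : ℤ) - 1 = (u + 2) * (-((u : ℤ) * T)) - 2 := by
        have := P.hR
        rw [this]
        push_cast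
        ring
      rw [h9] at h8
      have h10 : ((u + 2 : ℕ) : ℤ) ∣ 2 := by
        have h11 : ((u + 2 : ℕ) : ℤ) ∣ (u + 2) * (-((u : ℤ) * T)) :=
          Dvd.intro _ (by push_cast; rfl)
        have h12 := dvd_sub h11 h8
        rwa [sub_sub_cancel] at h12
      have := Int.le_of_dvd (by norm_num) h10
      push_cast at this
      omega


/-- The semiprimitive case. -/
theorem Par.SS_dvd_eq (P : Par L p a u R T) (h : Adm p ψ) {k l N : ℕ} (hkl : k * l = u + 2)
    (hN : k * N = Fintype.card Lˣ) (z : Lˣ) :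
    SS ψ k (z : L) = R * (1 - k * (if z ^ N = 1 then 1 else 0)) := by
  set n : ℕ := Fintype.card Lˣ with hn
  have hn0 : 0 < n := Fintype.card_pos
  have hk0 : 0 < k := Nat.pos_of_ne_zero fun h0 => by rw [h0, zero_mul] at hkl; omega
  have hl0 : 0 < l := Nat.pos_of_ne_zero fun h0 => by rw [h0, mul_zero] at hkl; omega
  set Q : ℕ := u * (T * (R + 1)) with hQ
  have hKQ : (u + 2) * Q = n := P.card_units
  -- N = l Q
  have hNl : N = l * Q := by
    have : k * N = k * (l * Q) := by rw [hN, ← hKQ, ← hkl]; ring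
    exact Nat.eq_of_mul_eq_mul_left hk0 this
  have h1 : ∑ y : Lˣ, SS ψ (u + 2) ((z * y ^ k : Lˣ) : L) = n * SS ψ k (z : L) := by
    have h2 : ∀ y : Lˣ, SS ψ (u + 2) ((z * y ^ k : Lˣ) : L) =
        1 + ∑ x : Lˣ, ψ ((z : L) * ((y * x ^ l : Lˣ) : L) ^ k) := by
      intro y
      rw [SS_units ψ (by omega)]
      congr 1
      refine sum_congr rfl fun x _ => ?_
      congr 1
      push_cast
      rw [mul_pow, ← pow_mul, mul_comm l k, hkl]
      ring
    simp only [h2]
    rw [sum_add_distrib, sum_comm]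
    have h3 : ∀ x : Lˣ, ∑ y : Lˣ, ψ ((z : L) * ((y * x ^ l : Lˣ) : L) ^ k) =
        ∑ y : Lˣ, ψ ((z : L) * (y : L) ^ k) := fun x =>
      Equiv.sum_comp (Equiv.mulRight (x ^ l)) (fun y : Lˣ => ψ ((z : L) * (y : L) ^ k))
    simp only [h3]
    rw [sum_const, sum_const, card_univ, SS_units ψ hk0.ne', nsmul_eq_mul, nsmul_eq_mul]
    ring
  have h4 : ∑ y : Lˣ, SS ψ (u + 2) ((z * y ^ k : Lˣ) : L) =
      R * (n - (u + 2) * ((k * Q : ℕ) * (if z ^ N = 1 then 1 else 0))) := by
    have h5 : ∀ y : Lˣ, SS ψ (u + 2) ((z * y ^ k : Lˣ) : L) =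
        R * (1 - (u + 2) * (if y ^ (k * Q) = (z ^ Q)⁻¹ then 1 else 0)) := by
      intro y
      have : ((z * y ^ k) ^ Q = 1) ↔ (y ^ (k * Q) = (z ^ Q)⁻¹) := by
        rw [mul_pow, ← pow_mul, mul_comm (z ^ Q), ← eq_inv_iff_mul_eq_one]
      have e : (if (z * y ^ k) ^ Q = 1 then (1 : ℂ) else 0) =
        if y ^ (k * Q) = (z ^ Q)⁻¹ then 1 else 0 := if_congr this rfl rfl
      rw [P.SS_eq h, ← hQ, e]
    simp only [h5]
    rw [← mul_sum, sum_sub_distrib, ← mul_sum, sum_const, card_univ, nsmul_eq_mul, mul_one,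
      ← sum_filter, sum_const, nsmul_eq_mul, mul_one]
    have h6 : (k * Q) * l = Fintype.card Lˣ := by rw [← hn, ← hKQ, ← hkl]; ring
    rw [card_pow_eq h6]
    have h7 : ((z ^ Q)⁻¹ ^ l = 1) ↔ z ^ N = 1 := by
      rw [inv_pow, inv_eq_one, ← pow_mul, mul_comm Q l, ← hNl]
    simp only [h7]
    by_cases hz : z ^ N = 1
    · rw [if_pos hz, if_pos hz, mul_one]
    · rw [if_neg hz, if_neg hz, mul_zero, Nat.cast_zero]
  rw [h1] at h4
  have hnC : (n : ℂ) ≠ 0 := Nat.cast_ne_zero.2 hn0.ne'
  have h8 : (((u : ℂ) + 2) * (k * Q : ℕ)) = k * n := by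
    rw [← hKQ]
    push_cast
    ring
  have h9 : (n : ℂ) * SS ψ k (z : L) = n * (R * (1 - k * (if z ^ N = 1 then 1 else 0))) := by
    rw [h4, ← mul_assoc ((u : ℂ) + 2), h8]
    ring
  exact mul_left_cancel₀ hnC h9

end Field

end SHC
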