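import Pool.Agent.SHC.Count

/-!
# SHC.Smooth: the polynomial, its smoothness; the character; the parameters
-/

namespace SHC

open Finset MvPolynomial

/-- The chain polynomial. -/
noncomputable def chainPoly (K : Type*) [CommRing K] (e n : ℕ) : MvPolynomial (Fin (n + 1)) K :=
  ∑ i : Fin n, X i.castSucc ^ e * X i.succ + X (Fin.last n) ^ (e + 1)

theorem chainPoly_homog (K : Type*) [CommRing K] (e n : ℕ) :
    (chainPoly K e n).IsHomogeneous (e + 1) := by
  unfold chainPoly
  refine IsHomogeneous.add ?_ ?_
  · refine IsHomogeneous.sum _ _ _ fun i _ => ?_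
    have h1 : ((X i.castSucc : MvPolynomial (Fin (n + 1)) K) ^ e).IsHomogeneous (1 * e) :=
      (isHomogeneous_X K _).pow e
    have h2 := h1.mul (isHomogeneous_X K i.succ)
    rwa [one_mul] at h2
  · have h1 : ((X (Fin.last n) : MvPolynomial (Fin (n + 1)) K) ^ (e + 1)).IsHomogeneous
      (1 * (e + 1)) := (isHomogeneous_X K _).pow (e + 1)
    rwa [one_mul] at h1

theorem aeval_chainPoly {K L : Type*} [CommRing K] [Field L] [Algebra K L] (e n : ℕ)
    (x : Fin (n + 1) → L) : aeval x (chainPoly K e n) = FF e n x := by
  unfold chainPoly FF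
  simp

theorem aeval_pderiv {K L : Type*} [CommRing K] [Field L] [Algebra K L] (e n : ℕ)
    (x : Fin (n + 1) → L) (j : Fin (n + 1)) : aeval x (pderiv j (chainPoly K e n)) =
      ∑ i : Fin n, ((if i.castSucc = j then (e : L) * x i.castSucc ^ (e - 1) * x i.succ else 0) +
        (if i.succ = j then x i.castSucc ^ e else 0)) +
      (if Fin.last n = j then ((e : L) + 1) * x (Fin.last n) ^ e else 0) := by
  unfold chainPoly
  rw [map_add, map_add, map_sum, map_sum]
  congr 1
  · refine sum_congr rfl fun i _ => ?_
    rw [Derivation.leibniz, Derivation.leibniz_pow, pderiv_X, pderiv_X]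
    by_cases h1 : i.castSucc = j
    · by_cases h2 : i.succ = j
      · subst h1
        exact absurd h2 (by
          intro h3
          have := congrArg Fin.val h3
          simp at this)
      · subst h1
        simp [h2, mul_comm]
    · by_cases h2 : i.succ = j
      · subst h2
        simp [h1]
      · simp [h1, h2]
  · rw [Derivation.leibniz_pow, pderiv_X]
    by_cases h1 : Fin.last n = j
    · subst h1
      simp
    · simp [h1]


theorem chain_smooth {L : Type*} [Field L] {e n : ℕ} (he : 2 ≤ e) (heL : (e : L) ≠ 0)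
    (x : Fin (n + 1) → L) (h0 : FF e n x = 0)
    (hd : ∀ j : Fin (n + 1), ∑ i : Fin n,
      ((if i.castSucc = j then (e : L) * x i.castSucc ^ (e - 1) * x i.succ else 0) +
        (if i.succ = j then x i.castSucc ^ e else 0)) +
      (if Fin.last n = j then ((e : L) + 1) * x (Fin.last n) ^ e else 0) = 0) : x = 0 := by
  have key : ∀ i : Fin n, x i.castSucc = 0 := by
    intro i
    induction i using WellFoundedLT.induction with
    | _ i ih =>
    by_contra hx
    -- the derivative in the direction `i`
    have h1 := hd i.castSucc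
    rw [if_neg (Fin.castSucc_lt_last i).ne', add_zero, sum_eq_single i] at h1
    · rw [if_pos rfl, if_neg, add_zero] at h1
      · have h2 : x i.succ = 0 := by
          rcases mul_eq_zero.1 h1 with h3 | h3
          · exact absurd h3 (mul_ne_zero heL (pow_ne_zero _ hx))
          · exact h3
        have h4 := hd i.succ
        rw [sum_eq_single i] at h4
        · rw [if_pos rfl, if_neg, zero_add] at h4
          · have h5 : (if Fin.last n = i.succ then ((e : L) + 1) * x (Fin.last n) ^ e else 0) = 0 := by
              by_cases h6 : Fin.last n = i.succ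
              · rw [if_pos h6, h6, h2, zero_pow (by omega), mul_zero]
              · rw [if_neg h6]
            rw [h5, add_zero] at h4
            exact pow_ne_zero _ hx h4
          · intro h3
            have := congrArg Fin.val h3
            simp at this
        · intro b _ hb
          have h7 : ¬ b.succ = i.succ := fun h => hb (Fin.succ_injective _ h)
          rw [if_neg h7, add_zero]
          by_cases h8 : b.castSucc = i.succ
          · rw [if_pos h8, h8, h2, zero_pow (by omega), mul_zero, zero_mul]
          · rw [if_neg h8]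
        · exact fun h => absurd (mem_univ _) h
      · intro h3
        have := congrArg Fin.val h3
        simp at this
    · intro b _ hb
      have h7 : ¬ b.castSucc = i.castSucc := fun h => hb (Fin.castSucc_injective _ h)
      rw [if_neg h7, zero_add]
      by_cases h8 : b.succ = i.castSucc
      · have h9 : b < i := by
          have := congrArg Fin.val h8
          simp at this
          exact Fin.lt_def.2 (by omega)
        rw [if_pos h8, ih b h9, zero_pow (by omega)]
      · rw [if_neg h8]
    · exact fun h => absurd (mem_univ _) h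
  have hlast : x (Fin.last n) = 0 := by
    unfold FF at h0
    rw [sum_eq_zero, zero_add] at h0
    · exact pow_eq_zero_iff (Nat.succ_ne_zero e) |>.1 h0
    · intro i _
      rw [key i, zero_pow (by omega), zero_mul]
  funext j
  rcases Fin.eq_castSucc_or_eq_last j with ⟨i, rfl⟩ | rfl
  · exact key i
  · exact hlast

theorem exists_adm (L : Type*) [Field L] [Fintype L] [DecidableEq L] (p : ℕ) [Fact p.Prime]
    [Algebra (ZMod p) L] : ∃ ψ : AddChar L ℂ, Adm p ψ := by
  refine ⟨(ZMod.stdAddChar (N := p)).compAddMonoidHom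
    (Algebra.trace (ZMod p) L).toAddMonoidHom, ?_, ?_⟩
  · refine AddChar.IsPrimitive.of_ne_one ?_
    rw [AddChar.ne_one_iff]
    obtain ⟨b, hb⟩ := Algebra.trace_surjective (ZMod p) L 1
    refine ⟨b, fun h => ?_⟩
    rw [AddChar.compAddMonoidHom_apply] at h
    change ZMod.stdAddChar (Algebra.trace (ZMod p) L b) = 1 at h
    rw [hb] at h
    have h1 := ZMod.injective_stdAddChar (N := p) (a₁ := 1) (a₂ := 0)
      (by rw [h, AddChar.map_zero_eq_one])
    exact one_ne_zero h1
  · intro x
    rw [AddChar.compAddMonoidHom_apply, AddChar.compAddMonoidHom_apply]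
    congr 1
    change Algebra.trace (ZMod p) L (x ^ p) = Algebra.trace (ZMod p) L x
    have hbij : Function.Bijective (FiniteField.frobeniusAlgHom (ZMod p) L) :=
      (Finite.injective_iff_bijective).1 (FiniteField.frobeniusAlgHom (ZMod p) L).toRingHom.injective
    have h1 := Algebra.trace_eq_of_algEquiv
      (AlgEquiv.ofBijective (FiniteField.frobeniusAlgHom (ZMod p) L) hbij) x
    rw [AlgEquiv.coe_ofBijective, FiniteField.coe_frobeniusAlgHom, ZMod.card] at h1
    exact h1

theorem hyp_of {L : Type*} [Field L] [Fintype L] {p a m e n : ℕ} [Fact p.Prime] (ha : 1 ≤ a)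
    (hm : 1 ≤ m) (hL : Fintype.card L = (p ^ (2 * a)) ^ (2 * m)) (he : e ^ n ∣ p ^ a + 1) :
    ∃ u T, Hyp L p a u ((p ^ (2 * a)) ^ m) T e n := by
  have hp2 : 2 ≤ p := (Fact.out : p.Prime).two_le
  have hpa : 2 ≤ p ^ a := le_trans hp2 (Nat.le_self_pow (by omega) p)
  obtain ⟨u, hu⟩ : ∃ u, p ^ a = u + 1 := ⟨p ^ a - 1, by omega⟩
  have hu1 : 1 ≤ u := by omega
  have hs : p ^ (2 * a) = u * (u + 2) + 1 := by
    rw [two_mul, pow_add, hu]
    ring
  have hdvd := Nat.sub_dvd_pow_sub_pow (p ^ (2 * a)) 1 m
  rw [one_pow] at hdvd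
  obtain ⟨T, hT⟩ := hdvd
  have h1 : 1 < (p ^ (2 * a)) ^ m := Nat.one_lt_pow (by omega) (by rw [hs]; nlinarith)
  refine ⟨u, T, ⟨⟨hu, hu1, ?_, ?_, ?_, ?_⟩, ?_⟩⟩
  · have h2 : p ^ (2 * a) - 1 = u * (u + 2) := by rw [hs]; rfl
    rw [h2] at hT
    omega
  · rcases Nat.eq_zero_or_pos T with h0 | h0
    · rw [h0, mul_zero] at hT
      omega
    · exact h0
  · rcases (Fact.out : p.Prime).eq_two_or_odd' with h2 | h2
    · exact Or.inl h2
    · exact Or.inr ((h2.pow).pow)
  · rw [hL, two_mul m, pow_add]
  · have : u + 2 = p ^ a + 1 := by rw [hu]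
    rw [this]
    exact he

end SHC
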