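import Pool.Agent.SHC.Loop
import Pool.Agent.SHC.Smooth

/-!
# SHC.LoopCount: the zeros of `x_0 ^ e x_1 + ⋯ + x_(n-1) ^ e x_n + x_n ^ e x_0`; smoothness
-/

namespace SHC

open Finset
open scoped LinearAlgebra.Projectivization

section Form

variable {L : Type*} [Field L]

/-- The loop form, the indices being taken modulo `n + 1`. -/
def FL (e n : ℕ) (x : Fin (n + 1) → L) : L := ∑ i : Fin (n + 1), x i ^ e * x (i + 1)

theorem FL_smul (e n : ℕ) (c : L) (x : Fin (n + 1) → L) :
    FL e n (c • x) = c ^ (e + 1) * FL e n x := by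
  unfold FL
  rw [mul_sum]
  refine sum_congr rfl fun i _ => ?_
  simp only [Pi.smul_apply, smul_eq_mul]
  ring

theorem FL_eq (e n : ℕ) (x : Fin (n + 1) → L) : FL e n x =
    ∑ i : Fin n, x i.castSucc ^ e * x i.succ + x (Fin.last n) ^ e * x 0 := by
  unfold FL
  rw [Fin.sum_univ_castSucc]
  simp only [Fin.coeSucc_eq_succ, Fin.last_add_one]

variable [Fintype L] [DecidableEq L] {ψ : AddChar L ℂ}

theorem path_sum (ψ : AddChar L ℂ) (e : ℕ) (t : L) (k : ℕ) (g f : L → ℂ) :
    ∑ x : Fin (k + 1) → L, g (x 0) *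
      (ψ (t * ∑ i : Fin k, x i.castSucc ^ e * x i.succ) * f (x (Fin.last k))) =
      ∑ y, g y * W ψ e t f k y := by
  induction k generalizing g with
  | zero =>
    refine Fintype.sum_equiv (Equiv.funUnique (Fin 1) L) _ _ fun x => ?_
    simp [W]
  | succ k ih =>
    rw [← Equiv.sum_comp (Fin.consEquiv (fun _ : Fin (k + 2) => L)), Fintype.sum_prod_type]
    refine sum_congr rfl fun y _ => ?_
    rw [W, ← ih (fun x => ψ (t * (y ^ e * x))), mul_sum]
    refine sum_congr rfl fun x _ => ?_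
    rw [Fin.sum_univ_succ, mul_add, AddChar.map_add_eq_mul]
    have e1 : ∀ i : Fin k, (Fin.cons y x : Fin (k + 2) → L) i.succ.castSucc = x i.castSucc := by
      intro i
      rw [← Fin.succ_castSucc]
      exact Fin.cons_succ (α := fun _ => L) y x i.castSucc
    have e2 : ∀ i : Fin (k + 1), (Fin.cons y x : Fin (k + 2) → L) i.succ = x i := fun i =>
      Fin.cons_succ (α := fun _ => L) y x i
    have e3 : (Fin.cons y x : Fin (k + 2) → L) 0 = y := Fin.cons_zero (α := fun _ => L) y x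
    have e4 : (Fin.cons y x : Fin (k + 2) → L) (Fin.last (k + 1)) = x (Fin.last k) := by
      rw [← Fin.succ_last]
      exact e2 _
    have e5 : (Fin.cons y x : Fin (k + 2) → L) (Fin.castSucc 0) = y := e3
    simp only [Fin.consEquiv_apply, e1, e2, e3, e4, e5]
    ring

theorem loop_sum (ψ : AddChar L ℂ) (e n : ℕ) (t : L) :
    ∑ x : Fin (n + 1) → L, ψ (t * FL e n x) =
      ∑ z : L, W ψ e t (fun x => if x = z then 1 else 0) (n + 1) z := by
  have h1 : ∀ z : L, W ψ e t (fun x => if x = z then 1 else 0) (n + 1) z =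
      ∑ y, (if y = z then 1 else 0) * W ψ e t (fun y => ψ (t * (y ^ e * z))) n y := by
    intro z
    rw [W_succ']
    have h2 : (fun y : L => ∑ x : L, ψ (t * (y ^ e * x)) * (if x = z then 1 else 0)) =
        fun y => ψ (t * (y ^ e * z)) := by
      funext y
      rw [sum_eq_single z]
      · rw [if_pos rfl, mul_one]
      · intro b _ hb
        rw [if_neg hb, mul_zero]
      · exact fun h => absurd (mem_univ _) h
    rw [h2, sum_eq_single z]
    · rw [if_pos rfl, one_mul]
    · intro b _ hb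
      rw [if_neg hb, zero_mul]
    · exact fun h => absurd (mem_univ _) h
  simp only [h1, ← path_sum]
  rw [sum_comm]
  refine sum_congr rfl fun x _ => ?_
  rw [sum_eq_single (x 0)]
  · rw [if_pos rfl, one_mul, FL_eq, mul_add, AddChar.map_add_eq_mul]
  · intro b _ hb
    rw [if_neg (fun h => hb h.symm), zero_mul]
  · exact fun h => absurd (mem_univ _) h

variable {p : ℕ} [Fact p.Prime] [CharP L p] {r R M e n D ν i : ℕ}

theorem Dat.count_loop (H : Dat L p r R D M) (h : Adm p ψ) (hn : 1 ≤ n) (he0 : 1 ≤ e)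
    (he : IsCoprime (e : ℤ) (D : ℤ)) (hs : (sg e (n + 1)).natAbs = D)
    (hν : (D : ℤ) ∣ (p : ℤ) ^ ν * (-(e : ℤ)) ^ i + 1) :
    ((univ.filter fun x : Fin (n + 1) → L => FL e n x = 0).card : ℤ) =
      R ^ (2 * n) + (R ^ 2 - 1) * R ^ (n - 1) * (1 - sg e (n + 1)) := by
  have hR1 : 2 ≤ R := H.two_le
  set N : ℕ := (univ.filter fun x : Fin (n + 1) → L => FL e n x = 0).card with hN
  -- the sum over all frequencies
  have h1 : ∑ t : L, ∑ x : Fin (n + 1) → L, ψ (t * FL e n x) = (R : ℂ) ^ 2 * N := by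
    rw [sum_comm]
    have h2 : ∀ x : Fin (n + 1) → L, ∑ t : L, ψ (t * FL e n x) =
        if FL e n x = 0 then (R : ℂ) ^ 2 else 0 := by
      intro x
      rw [AddChar.sum_mulShift _ h.prim, H.hcard]
      push_cast
      by_cases hx : FL e n x = 0
      · rw [if_pos hx, if_pos hx]
        ring
      · rw [if_neg hx, if_neg hx]
    rw [sum_congr rfl fun x _ => h2 x, ← sum_filter, sum_const, nsmul_eq_mul, mul_comm]
  have h3 : ∑ t : L, ∑ x : Fin (n + 1) → L, ψ (t * FL e n x) =
      (R : ℂ) ^ (2 * (n + 1)) + ∑ t : Lˣ, ∑ z : L,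
        W ψ e (t : L) (fun x => if x = z then 1 else 0) (n + 1) z := by
    rw [sum_units]
    congr 1
    · simp only [zero_mul, AddChar.map_zero_eq_one]
      rw [sum_const, card_univ, Fintype.card_fun, Fintype.card_fin, H.hcard, nsmul_eq_mul,
        mul_one]
      push_cast
      rw [← pow_two, ← pow_mul]
    · exact sum_congr rfl fun t _ => loop_sum ψ e n (t : L)
  rw [h3, H.total_loop h he0 he hs hν] at h1
  have h4 : (R : ℤ) ^ 2 * N = (R : ℤ) ^ 2 *
      (R ^ (2 * n) + (R ^ 2 - 1) * R ^ (n - 1) * (1 - sg e (n + 1))) := by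
    have h5 : (((R : ℤ) ^ 2 * N : ℤ) : ℂ) = (((R : ℤ) ^ 2 *
      (R ^ (2 * n) + (R ^ 2 - 1) * R ^ (n - 1) * (1 - sg e (n + 1))) : ℤ) : ℂ) := by
      push_cast
      rw [← h1]
      obtain ⟨m, rfl⟩ : ∃ m, n = m + 1 := ⟨n - 1, by omega⟩
      rw [Nat.add_sub_cancel]
      ring
    exact_mod_cast h5
  have hR2 : (R : ℤ) ^ 2 ≠ 0 := by positivity
  exact mul_left_cancel₀ hR2 h4

/-- The number of points of a projective hypersurface. -/
theorem proj_count_gen {F : (Fin (n + 1) → L) → L} {k : ℕ}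
    (hF : ∀ (c : L) (x : Fin (n + 1) → L), F (c • x) = c ^ (k + 1) * F x)
    {q : ℕ} (hq : Fintype.card L = q) :
    ((univ.filter fun x : Fin (n + 1) → L => F x = 0).card : ℤ) =
      1 + (q - 1) * (Nat.card {P : ℙ L (Fin (n + 1) → L) // F P.rep = 0} : ℤ) := by
  have hmap : Function.Bijective (fun w : Lˣ × {P : ℙ L (Fin (n + 1) → L) // F P.rep = 0} =>
      (⟨(w.1 : L) • w.2.1.rep, by
        refine ⟨?_, ?_⟩
        · rw [hF, w.2.2, mul_zero]
        · exact smul_ne_zero w.1.ne_zero w.2.1.rep_nonzero⟩ :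
        {x : Fin (n + 1) → L // F x = 0 ∧ x ≠ 0})) := by
    constructor
    · rintro ⟨c, P, hP⟩ ⟨c', P', hP'⟩ hcc
      have h1 : (c : L) • P.rep = (c' : L) • P'.rep := congrArg Subtype.val hcc
      have h2 : P = P' := by
        rw [← P.mk_rep, ← P'.mk_rep, Projectivization.mk_eq_mk_iff]
        refine ⟨c⁻¹ * c', ?_⟩
        rw [mul_smul, Units.smul_def c', ← h1, ← Units.smul_def c, inv_smul_smul]
      subst h2
      have h3 : (c : L) = c' := smul_left_injective L P.rep_nonzero h1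
      rw [Units.ext h3]
    · rintro ⟨x, hx, hx0⟩
      obtain ⟨c, hc⟩ := Projectivization.exists_smul_eq_mk_rep L x hx0
      refine ⟨⟨c⁻¹, ⟨Projectivization.mk L x hx0, ?_⟩⟩, ?_⟩
      · rw [← hc, Units.smul_def, hF, hx, mul_zero]
      · apply Subtype.ext
        change ((c⁻¹ : Lˣ) : L) • (Projectivization.mk L x hx0).rep = x
        rw [← hc, ← Units.smul_def, inv_smul_smul]
  have h1 := Nat.card_congr (Equiv.ofBijective _ hmap)
  rw [Nat.card_prod, Nat.card_eq_fintype_card (α := Lˣ), Fintype.card_units, hq] at h1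
  have h2 : (univ.filter fun x : Fin (n + 1) → L => F x = 0).card =
      1 + Nat.card {x : Fin (n + 1) → L // F x = 0 ∧ x ≠ 0} := by
    rw [Nat.card_eq_fintype_card, Fintype.card_subtype]
    have h3 : (univ.filter fun x : Fin (n + 1) → L => F x = 0) =
        insert 0 (univ.filter fun x : Fin (n + 1) → L => F x = 0 ∧ x ≠ 0) := by
      ext x
      rw [mem_insert, mem_filter, mem_filter]
      by_cases hx : x = 0
      · subst hx
        have : F (0 : Fin (n + 1) → L) = 0 := by
          have := hF (0 : L) (0 : Fin (n + 1) → L)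
          rw [smul_zero, zero_pow (Nat.succ_ne_zero k), zero_mul] at this
          exact this
        simp [this]
      · simp [hx]
    rw [h3, card_insert_of_notMem, add_comm]
    intro h4
    exact (mem_filter.1 h4).2.2 rfl
  have hq1 : 1 ≤ q := by
    rw [← hq]
    exact Fintype.card_pos
  rw [h2, ← h1]
  push_cast [Nat.cast_sub hq1]
  ring

theorem Dat.proj_loop (H : Dat L p r R D M) (h : Adm p ψ) (hn : 1 ≤ n) (he0 : 1 ≤ e)
    (he : IsCoprime (e : ℤ) (D : ℤ)) (hs : (sg e (n + 1)).natAbs = D)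
    (hν : (D : ℤ) ∣ (p : ℤ) ^ ν * (-(e : ℤ)) ^ i + 1) :
    (Nat.card {P : ℙ L (Fin (n + 1) → L) // FL e n P.rep = 0} : ℤ) =
      ∑ i ∈ range n, (R : ℤ) ^ (2 * i) + (1 - sg e (n + 1)) * R ^ (n - 1) := by
  have h1 := H.count_loop h hn he0 he hs hν
  rw [proj_count_gen (FL_smul e n) H.hcard] at h1
  have h2 : ((R : ℤ) ^ 2 - 1) * ∑ i ∈ range n, (R : ℤ) ^ (2 * i) = R ^ (2 * n) - 1 := by
    have := mul_geom_sum ((R : ℤ) ^ 2) n
    simp only [← pow_mul] at this
    exact this
  have hR1 : 2 ≤ R := H.two_le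
  have h3 : ((R : ℤ) ^ 2 - 1) ≠ 0 := by
    have : (2 : ℤ) ≤ R := by exact_mod_cast hR1
    nlinarith
  refine mul_left_cancel₀ h3 ?_
  push_cast at h1
  linear_combination h1 - h2

end Form

/-- The data exist for a field with `(s ^ 2) ^ m` elements, `s` a suitable power of `p`. -/
theorem exists_dat {p D : ℕ} [Fact p.Prime] (hD : 0 < D) (hpD : ¬ p ∣ D) :
    ∃ a : ℕ, 1 ≤ a ∧ ∀ (L : Type) [Field L] [Fintype L] [CharP L p] (m : ℕ), 1 ≤ m →
      Fintype.card L = ((p ^ a) ^ 2) ^ m → ∃ M, Dat L p (a * m) ((p ^ a) ^ m) D M := by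
  have hp := (Fact.out : p.Prime)
  have hcop : Nat.Coprime p D := (Nat.Prime.coprime_iff_not_dvd hp).2 hpD
  -- an exponent with `D E ∣ p ^ a - 1`, `E = 1` for `p = 2` and `E = 2` otherwise
  obtain ⟨E, hE, hcE⟩ : ∃ E : ℕ, (p = 2 ∨ Even E) ∧ 0 < E ∧ Nat.Coprime p (D * E) := by
    rcases hp.eq_two_or_odd' with h2 | h2
    · exact ⟨1, Or.inl h2, one_pos, by rwa [mul_one]⟩
    · exact ⟨2, Or.inr even_two, two_pos,
        Nat.Coprime.mul_right hcop (Nat.coprime_two_right.2 h2)⟩
  obtain ⟨hE0, hcE⟩ := hcE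
  refine ⟨Nat.totient (D * E), Nat.totient_pos.2 (Nat.mul_pos hD hE0), ?_⟩
  intro L _ _ _ m hm hcard
  set s : ℕ := p ^ Nat.totient (D * E) with hs
  have h1 : D * E ∣ s - 1 :=
    (Nat.modEq_iff_dvd' (Nat.one_le_pow _ _ hp.pos)).1 (Nat.ModEq.pow_totient hcE).symm
  have h2 : D * E ∣ s ^ m - 1 := by
    have h3 := Nat.sub_dvd_pow_sub_pow s 1 m
    rw [one_pow] at h3
    exact h1.trans h3
  have hs1 : 1 ≤ s ^ m := Nat.one_le_pow _ _ (Nat.pow_pos hp.pos)
  obtain ⟨k, hk⟩ := h2
  refine ⟨E * k, ?_, ?_, ?_, ?_⟩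
  · rw [hs, ← pow_mul]
  · rw [hcard]
    ring
  · rw [← mul_assoc, ← hk]
    omega
  · rcases hE with h2 | h2
    · have h3 : (-1 : L) = 1 := by
        have h4 : (2 : L) = 0 := by
          have := CharP.cast_eq_zero L p
          rw [h2] at this
          exact_mod_cast this
        linear_combination -h4
      rw [h3, one_pow]
    · exact (h2.mul_right k).neg_one_pow

section Smooth

open MvPolynomial

/-- The loop polynomial, the indices being taken modulo `n + 1`. -/
noncomputable def loopPoly (K : Type*) [CommRing K] (e n : ℕ) : MvPolynomial (Fin (n + 1)) K :=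
  ∑ i : Fin (n + 1), X i ^ e * X (i + 1)

theorem loopPoly_homog (K : Type*) [CommRing K] (e n : ℕ) :
    (loopPoly K e n).IsHomogeneous (e + 1) := by
  unfold loopPoly
  refine IsHomogeneous.sum _ _ _ fun i _ => ?_
  have h1 : ((X i : MvPolynomial (Fin (n + 1)) K) ^ e).IsHomogeneous (1 * e) :=
    (isHomogeneous_X K _).pow e
  have h2 := h1.mul (isHomogeneous_X K (i + 1))
  rwa [one_mul] at h2

theorem aeval_loopPoly {K L : Type*} [CommRing K] [Field L] [Algebra K L] (e n : ℕ)
    (x : Fin (n + 1) → L) : aeval x (loopPoly K e n) = FL e n x := by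
  unfold loopPoly FL
  simp

theorem aeval_pderiv_loop {K L : Type*} [CommRing K] [Field L] [Algebra K L] (e n : ℕ)
    (x : Fin (n + 1) → L) (j : Fin (n + 1)) : aeval x (pderiv (j + 1) (loopPoly K e n)) =
      (e : L) * x (j + 1) ^ (e - 1) * x (j + 1 + 1) + x j ^ e := by
  unfold loopPoly
  rw [map_sum, map_sum]
  have h1 : ∀ i : Fin (n + 1), aeval x (pderiv (j + 1)
      ((X i : MvPolynomial (Fin (n + 1)) K) ^ e * X (i + 1))) =
      (if i = j + 1 then (e : L) * x i ^ (e - 1) * x (i + 1) else 0) +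
        (if i = j then x i ^ e else 0) := by
    intro i
    rw [Derivation.leibniz, Derivation.leibniz_pow, pderiv_X, pderiv_X]
    by_cases h2 : i = j + 1
    · by_cases h3 : i = j
      · subst h3
        rw [if_pos h2, if_pos rfl]
        simp [← h2, mul_comm, add_comm]
      · subst h2
        have h4 : ¬ (j + 1 + 1 = j + 1) := fun h => h3 (add_right_cancel h)
        rw [if_pos rfl, if_neg h3]
        simp [h4, mul_comm]
    · by_cases h3 : i = j
      · subst h3
        rw [if_neg h2, if_pos rfl]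
        simp [h2]
      · have h4 : ¬ (i + 1 = j + 1) := fun h => h3 (add_right_cancel h)
        rw [if_neg h2, if_neg h3]
        simp [h2, h3]
  rw [sum_congr rfl fun i _ => h1 i, sum_add_distrib]
  simp

theorem loop_smooth {L : Type*} [Field L] {e n : ℕ} (he : 2 ≤ e) (hs : (sg e (n + 1) : L) ≠ 0)
    (x : Fin (n + 1) → L) (h0 : FL e n x = 0)
    (hd : ∀ j : Fin (n + 1), (e : L) * x (j + 1) ^ (e - 1) * x (j + 1 + 1) + x j ^ e = 0) :
    x = 0 := by
  -- the monomials
  have h1 : ∀ j : Fin (n + 1), x j ^ e * x (j + 1) =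
      -(e : L) * (x (j + 1) ^ e * x (j + 1 + 1)) := by
    intro j
    have h2 := hd j
    have h3 : x (j + 1) ^ e = x (j + 1) ^ (e - 1) * x (j + 1) := by
      rw [← pow_succ]
      congr 1
      omega
    rw [h3]
    linear_combination x (j + 1) * h2
  -- all of them in terms of the last one
  have h2 : ∀ k : Fin (n + 1), x k.rev ^ e * x (k.rev + 1) =
      (-(e : L)) ^ (k : ℕ) * (x (Fin.last n) ^ e * x (Fin.last n + 1)) := by
    intro k
    induction k using Fin.induction with
    | zero => simp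
    | succ k ih =>
      rw [Fin.rev_succ, h1, Fin.coeSucc_eq_succ, ← Fin.rev_castSucc, ih, Fin.val_succ,
        Fin.val_castSucc]
      ring
  have h5 : x (Fin.last n) ^ e * x (Fin.last n + 1) = 0 := by
    have h4 : FL e n x = (sg e (n + 1) : L) * (x (Fin.last n) ^ e * x (Fin.last n + 1)) := by
      unfold FL sg
      push_cast
      rw [sum_mul, ← Fin.sum_univ_eq_sum_range
        (fun k => (-(e : L)) ^ k * (x (Fin.last n) ^ e * x (Fin.last n + 1))) (n + 1)]
      rw [← Equiv.sum_comp Fin.revPerm (fun i => x i ^ e * x (i + 1))]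
      refine sum_congr rfl fun i _ => ?_
      rw [Fin.revPerm_apply, h2 i]
    rw [h0] at h4
    exact (mul_eq_zero.1 h4.symm).resolve_left hs
  have h3 : ∀ j : Fin (n + 1), x j ^ e * x (j + 1) = 0 := by
    intro j
    have h6 := h2 j.rev
    rwa [Fin.rev_rev, h5, mul_zero] at h6
  funext j
  rw [Pi.zero_apply]
  by_contra hx
  have h4 : x (j + 1) = 0 := (mul_eq_zero.1 (h3 j)).resolve_left (pow_ne_zero _ hx)
  have h5 := hd j
  rw [h4, zero_pow (by omega), mul_zero, zero_mul, zero_add] at h5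
  exact pow_ne_zero _ hx h5

end Smooth

end SHC
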