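import Pool.Agent.SHC.Semi

/-!
# SHC.Chain: exponential sums along a chain

`V 0 y = 1`, `V (k+1) y = ∑ x, V k x ψ (t x ^ e y)`; for `e ^ n ∣ q0 + 1` and `k ≤ n`,
`V k y = R ^ k ∑ j ≤ k, (-e) ^ j [y t ^ (c j) is an e ^ j-th power]` for `y ≠ 0`.
-/

namespace SHC

open Finset

variable {L : Type*} [Field L] [Fintype L] [DecidableEq L] {p : ℕ} {ψ : AddChar L ℂ}
  [Fact p.Prime] [CharP L p] {a u R T : ℕ}

/-- The hypotheses on the field. -/
structure Hyp (L : Type*) [Field L] [Fintype L] (p a u R T e n : ℕ) : Prop extends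
    Par L p a u R T where
  he : e ^ n ∣ u + 2

variable {e n : ℕ}

omit [DecidableEq L] [Fact p.Prime] [CharP L p] in
theorem Hyp.e_pos (H : Hyp L p a u R T e (n + 1)) : 0 < e := by
  rcases Nat.eq_zero_or_pos e with h | h
  · have := H.he
    rw [h, zero_pow (by omega), zero_dvd_iff] at this
    omega
  · exact h

/-- `#Lˣ / e ^ j`. -/
def NN (L : Type*) [Field L] [Fintype L] [DecidableEq L] (e j : ℕ) : ℕ := Fintype.card Lˣ / e ^ j

theorem Hyp.mul_NN (H : Hyp L p a u R T e n) {j : ℕ} (hj : j ≤ n) :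
    e ^ j * NN L e j = Fintype.card Lˣ := by
  refine Nat.mul_div_cancel' ?_
  exact (pow_dvd_pow e hj).trans (H.he.trans (Dvd.intro _ H.toPar.card_units))

/-- The indicator of the `e ^ j`-th powers. -/
noncomputable def ind (e j : ℕ) (w : Lˣ) : ℂ := if w ^ NN L e j = 1 then 1 else 0

theorem Hyp.ind_zero (H : Hyp L p a u R T e n) (w : Lˣ) : ind e 0 w = 1 := by
  have h := H.mul_NN (Nat.zero_le n)
  rw [pow_zero, one_mul] at h
  unfold ind
  rw [h, pow_card_eq_one, if_pos rfl]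

theorem ind_one (j : ℕ) : ind e j (1 : Lˣ) = 1 := by
  unfold ind
  rw [one_pow, if_pos rfl]

theorem Hyp.sum_ind (H : Hyp L p a u R T e n) {j : ℕ} (hj : j ≤ n) (f : Lˣ → ℂ) :
    (e : ℂ) ^ j * ∑ w, ind e j w * f w = ∑ y : Lˣ, f (y ^ e ^ j) := by
  rw [sum_pow_eq (H.mul_NN hj) f]
  push_cast
  congr 1
  refine sum_congr rfl fun w _ => ?_
  unfold ind
  by_cases h : w ^ NN L e j = 1
  · rw [if_pos h, if_pos h, one_mul]
  · rw [if_neg h, if_neg h, zero_mul]

theorem Hyp.SS_ind (H : Hyp L p a u R T e n) (h : Adm p ψ) {j : ℕ} (hj : j ≤ n) (z : Lˣ) :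
    SS ψ (e ^ j) (z : L) = R * (1 - (e : ℂ) ^ j * ind e j z) := by
  obtain ⟨l, hl⟩ : e ^ j ∣ u + 2 := (pow_dvd_pow e hj).trans H.he
  have h1 := H.toPar.SS_dvd_eq h hl.symm (H.mul_NN hj) z
  rw [h1]
  push_cast
  rfl

/-- The exponents of `t`. -/
def cc (e : ℕ) : ℕ → ℤ
  | 0 => 0
  | (j + 1) => 1 - e * cc e j

theorem cc_eq (e j : ℕ) : 1 - ((e : ℤ) + 1) * cc e j = (-(e : ℤ)) ^ j := by
  induction j with
  | zero => simp [cc]
  | succ j ih =>
    rw [cc, pow_succ, ← ih]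
    ring

/-- The sums along a chain. -/
noncomputable def V (ψ : AddChar L ℂ) (e : ℕ) (t : L) : ℕ → L → ℂ
  | 0, _ => 1
  | (k + 1), y => ∑ x, V ψ e t k x * ψ (t * (x ^ e * y))

/-- The sum of the signs. -/
theorem sum_sign (k : ℕ) : ∑ j ∈ range (k + 1), (-1 : ℂ) ^ j = if Even k then 1 else 0 := by
  rw [neg_one_geom_sum]
  by_cases h : Even k
  · rw [if_pos h, if_neg]
    intro h2
    exact (Nat.even_add_one.1 h2) h
  · rw [if_neg h, if_pos]
    exact Nat.even_add_one.2 h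

/-- The inner sum. -/
theorem Hyp.inner (H : Hyp L p a u R T e n) (h : Adm p ψ) (t y : Lˣ) {j : ℕ} (hj : j + 1 ≤ n) :
    (-(e : ℂ)) ^ j * ∑ x : Lˣ, ind e j (x * t ^ cc e j) * ψ ((t : L) * ((x : L) ^ e * y)) =
      (-1) ^ j * (R - 1) + R * ((-(e : ℂ)) ^ (j + 1) * ind e (j + 1) (y * t ^ cc e (j + 1))) := by
  have h1 : ∑ x : Lˣ, ind e j (x * t ^ cc e j) * ψ ((t : L) * ((x : L) ^ e * y)) =
      ∑ x : Lˣ, ind e j x * ψ ((y * t ^ cc e (j + 1) * x ^ e : Lˣ) : L) := by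
    rw [← Equiv.sum_comp (Equiv.mulRight (t ^ cc e j))
      (fun x : Lˣ => ind e j x * ψ ((y * t ^ cc e (j + 1) * x ^ e : Lˣ) : L))]
    refine sum_congr rfl fun x _ => ?_
    rw [Equiv.coe_mulRight]
    congr 2
    have h2 : (y * t ^ cc e (j + 1) * (x * t ^ cc e j) ^ e : Lˣ) = t * (x ^ e * y) := by
      rw [mul_pow, cc, ← zpow_natCast (t ^ cc e j) e, ← zpow_mul, zpow_sub, zpow_one,
        mul_comm (e : ℤ)]
      generalize t ^ (cc e j * (e : ℤ)) = A
      calc y * (t * A⁻¹) * (x ^ e * A) = t * (x ^ e * y) * (A⁻¹ * A) := by ac_rfl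
        _ = t * (x ^ e * y) := by rw [inv_mul_cancel, mul_one]
    rw [h2]
    push_cast
    rfl
  have h3 : (e : ℂ) ^ j * ∑ x : Lˣ, ind e j x * ψ ((y * t ^ cc e (j + 1) * x ^ e : Lˣ) : L) =
      SS ψ (e ^ (j + 1)) ((y * t ^ cc e (j + 1) : Lˣ) : L) - 1 := by
    rw [H.sum_ind (by omega) (fun x => ψ ((y * t ^ cc e (j + 1) * x ^ e : Lˣ) : L))]
    rw [SS_units]
    · rw [add_sub_cancel_left]
      refine sum_congr rfl fun x _ => ?_
      congr 1
      rw [← pow_mul, ← pow_succ]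
      push_cast
      rfl
    · have hn : n = (n - 1) + 1 := by omega
      rw [hn] at H
      exact pow_ne_zero _ H.e_pos.ne'
  rw [H.SS_ind h hj] at h3
  rw [h1, neg_pow, mul_assoc, h3]
  rw [neg_pow (e : ℂ) (j + 1)]
  ring

theorem Hyp.sum_V (H : Hyp L p a u R T e n) (t : Lˣ) {k : ℕ} (hk : k ≤ n) :
    ∑ x : Lˣ, (∑ j ∈ range (k + 1), (-(e : ℂ)) ^ j * ind e j (x * t ^ cc e j)) =
      ((R : ℂ) ^ 2 - 1) * (if Even k then 1 else 0) := by
  rw [sum_comm, ← sum_sign, mul_sum]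
  refine sum_congr rfl fun j hj => ?_
  have hj' : j ≤ n := by
    have := mem_range.1 hj
    omega
  rw [← mul_sum]
  have h1 : ∑ x : Lˣ, ind e j (x * t ^ cc e j) = ∑ x : Lˣ, ind e j x :=
    Equiv.sum_comp (Equiv.mulRight (t ^ cc e j)) (fun x : Lˣ => ind e j x)
  have h2 := H.sum_ind hj' (fun _ => 1)
  simp only [mul_one] at h2
  rw [sum_const, card_univ, nsmul_eq_mul, mul_one] at h2
  have h3 : ((Fintype.card Lˣ : ℕ) : ℂ) = (R : ℂ) ^ 2 - 1 := by
    rw [Fintype.card_units, H.toPar.hcard, Nat.cast_sub]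
    · push_cast
      ring
    · have hR1 : 1 ≤ R := by
        rw [H.toPar.hR]
        exact Nat.le_add_left 1 _
      nlinarith
  rw [h1, neg_pow, mul_assoc, h2, h3]
  ring

theorem Hyp.V_eq (H : Hyp L p a u R T e n) (h : Adm p ψ) (t : Lˣ) {k : ℕ} (hk : k ≤ n) :
    V ψ e (t : L) k 0 = R ^ k * (if Even k then 1 else R) ∧
    ∀ y : Lˣ, V ψ e (t : L) k y =
      R ^ k * ∑ j ∈ range (k + 1), (-(e : ℂ)) ^ j * ind e j (y * t ^ cc e j) := by
  induction k with
  | zero =>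
    refine ⟨?_, fun y => ?_⟩
    · simp [V]
    · simp [V, H.ind_zero]
  | succ k ih =>
    obtain ⟨ih0, ih1⟩ := ih (by omega)
    have he0 : e ≠ 0 := by
      have hn : n = (n - 1) + 1 := by omega
      rw [hn] at H
      exact H.e_pos.ne'
    constructor
    · rw [V]
      have h1 : ∀ x : L, V ψ e (t : L) k x * ψ ((t : L) * (x ^ e * 0)) = V ψ e (t : L) k x := by
        intro x
        rw [mul_zero, mul_zero, AddChar.map_zero_eq_one, mul_one]
      simp only [h1]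
      rw [sum_units, ih0]
      simp only [ih1]
      rw [← mul_sum, H.sum_V t (by omega)]
      by_cases hk2 : Even k
      · rw [if_pos hk2, if_pos hk2, if_neg (fun h2 => (Nat.even_add_one.1 h2) hk2)]
        ring
      · rw [if_neg hk2, if_neg hk2, if_pos (Nat.even_add_one.2 hk2)]
        ring
    · intro y
      rw [V, sum_units, zero_pow he0, zero_mul, mul_zero, AddChar.map_zero_eq_one, mul_one, ih0]
      simp only [ih1]
      have h1 : ∑ x : Lˣ, R ^ k * (∑ j ∈ range (k + 1), (-(e : ℂ)) ^ j *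
          ind e j (x * t ^ cc e j)) * ψ ((t : L) * ((x : L) ^ e * y)) =
          R ^ k * ∑ j ∈ range (k + 1), ((-(e : ℂ)) ^ j *
            ∑ x : Lˣ, ind e j (x * t ^ cc e j) * ψ ((t : L) * ((x : L) ^ e * y))) := by
        rw [mul_sum]
        simp only [mul_sum, sum_mul]
        rw [sum_comm]
        refine sum_congr rfl fun j _ => sum_congr rfl fun x _ => ?_
        ring
      rw [h1]
      have h2 : ∀ j ∈ range (k + 1), ((-(e : ℂ)) ^ j *
            ∑ x : Lˣ, ind e j (x * t ^ cc e j) * ψ ((t : L) * ((x : L) ^ e * y))) =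
          (-1) ^ j * (R - 1) +
            R * ((-(e : ℂ)) ^ (j + 1) * ind e (j + 1) (y * t ^ cc e (j + 1))) := by
        intro j hj
        exact H.inner h t y (by have := mem_range.1 hj; omega)
      rw [sum_congr rfl h2, sum_add_distrib, ← sum_mul, sum_sign, ← mul_sum,
        sum_range_succ' _ (k + 1), H.ind_zero]
      by_cases hk2 : Even k
      · rw [if_pos hk2, if_pos hk2]
        ring
      · rw [if_neg hk2, if_neg hk2]
        ring

/-- The total sum. -/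
theorem Hyp.total (H : Hyp L p a u R T e n) (h : Adm p ψ) (hn : 1 ≤ n) :
    ∑ t : Lˣ, ∑ y : L, V ψ e (t : L) n y * ψ ((t : L) * y ^ (e + 1)) =
      ((R : ℂ) ^ 2 - 1) * R ^ (n + 1) * (1 - ∑ j ∈ range (n + 1), (-(e : ℂ)) ^ j) := by
  have he0 : e ≠ 0 := by
    have hn' : n = (n - 1) + 1 := by omega
    rw [hn'] at H
    exact H.e_pos.ne'
  have h0 : ∀ t : Lˣ, ∑ y : L, V ψ e (t : L) n y * ψ ((t : L) * y ^ (e + 1)) =
      R ^ n * (if Even n then 1 else R) + R ^ n * ∑ j ∈ range (n + 1), ((-(e : ℂ)) ^ j *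
        ∑ x : Lˣ, ind e j (x * t ^ cc e j) * ψ ((t : L) * (x : L) ^ (e + 1))) := by
    intro t
    obtain ⟨h1, h2⟩ := H.V_eq h t le_rfl
    rw [sum_units, zero_pow (by omega), mul_zero, AddChar.map_zero_eq_one, mul_one, h1]
    simp only [h2]
    congr 1
    rw [mul_sum]
    simp only [mul_sum, sum_mul]
    rw [sum_comm]
    refine sum_congr rfl fun j _ => sum_congr rfl fun x _ => ?_
    ring
  simp only [h0]
  have hcard : ((Fintype.card Lˣ : ℕ) : ℂ) = (R : ℂ) ^ 2 - 1 := by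
    rw [Fintype.card_units, H.toPar.hcard, Nat.cast_sub]
    · push_cast
      ring
    · have hR1 : 1 ≤ R := by
        rw [H.toPar.hR]
        exact Nat.le_add_left 1 _
      nlinarith
  rw [sum_add_distrib, sum_const, card_univ, nsmul_eq_mul, hcard, ← mul_sum, sum_comm]
  have h3 : ∀ j ∈ range (n + 1), ∑ t : Lˣ, ((-(e : ℂ)) ^ j *
        ∑ x : Lˣ, ind e j (x * t ^ cc e j) * ψ ((t : L) * (x : L) ^ (e + 1))) =
      ((R : ℂ) ^ 2 - 1) * ((-1) ^ j * (R - 1) - R * (-(e : ℂ)) ^ j) := by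
    intro j hj
    have hj' : j ≤ n := by have := mem_range.1 hj; omega
    rw [← mul_sum]
    have h4 : ∀ t : Lˣ, ∑ x : Lˣ, ind e j (x * t ^ cc e j) * ψ ((t : L) * (x : L) ^ (e + 1)) =
        ∑ x : Lˣ, ind e j x * ψ ((t ^ ((-(e : ℤ)) ^ j) * x ^ (e + 1) : Lˣ) : L) := by
      intro t
      rw [← Equiv.sum_comp (Equiv.mulRight (t ^ cc e j))
        (fun x : Lˣ => ind e j x * ψ ((t ^ ((-(e : ℤ)) ^ j) * x ^ (e + 1) : Lˣ) : L))]
      refine sum_congr rfl fun x _ => ?_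
      rw [Equiv.coe_mulRight]
      congr 2
      have h2 : (t ^ ((-(e : ℤ)) ^ j) * (x * t ^ cc e j) ^ (e + 1) : Lˣ) = t * x ^ (e + 1) := by
        rw [mul_pow, ← zpow_natCast (t ^ cc e j) (e + 1), ← zpow_mul, ← cc_eq, zpow_sub, zpow_one]
        push_cast
        rw [mul_comm (cc e j)]
        generalize t ^ (((e : ℤ) + 1) * cc e j) = A
        calc t * A⁻¹ * (x ^ (e + 1) * A) = t * x ^ (e + 1) * (A⁻¹ * A) := by ac_rfl
          _ = t * x ^ (e + 1) := by rw [inv_mul_cancel, mul_one]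
      rw [h2]
      push_cast
      rfl
    simp only [h4]
    have h5 : (e : ℂ) ^ j * ∑ t : Lˣ, ∑ x : Lˣ, ind e j x *
        ψ ((t ^ ((-(e : ℤ)) ^ j) * x ^ (e + 1) : Lˣ) : L) =
        ((R : ℂ) ^ 2 - 1) * (R * (1 - (e : ℂ) ^ j) - 1) := by
      rw [mul_sum]
      have h6 : ∀ t : Lˣ, (e : ℂ) ^ j * ∑ x : Lˣ, ind e j x *
          ψ ((t ^ ((-(e : ℤ)) ^ j) * x ^ (e + 1) : Lˣ) : L) =
          ∑ w : Lˣ, ψ ((t ^ ((-(e : ℤ)) ^ j) * (w ^ e ^ j) ^ (e + 1) : Lˣ) : L) := fun t =>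
        H.sum_ind hj' (fun x => ψ ((t ^ ((-(e : ℤ)) ^ j) * x ^ (e + 1) : Lˣ) : L))
      simp only [h6]
      rw [sum_comm]
      have h7 : ∀ w : Lˣ, ∑ t : Lˣ,
          ψ ((t ^ ((-(e : ℤ)) ^ j) * (w ^ e ^ j) ^ (e + 1) : Lˣ) : L) =
          SS ψ (e ^ j) ((1 : Lˣ) : L) - 1 := by
        intro w
        rw [SS_units ψ (pow_ne_zero _ he0), add_sub_cancel_left]
        have h8 : ∀ t : Lˣ, (t ^ ((-(e : ℤ)) ^ j) * (w ^ e ^ j) ^ (e + 1) : Lˣ) =
            ((t ^ ((-1 : ℤ) ^ j)) * w ^ (e + 1)) ^ e ^ j := by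
          intro t
          rw [mul_pow, ← pow_mul, ← pow_mul, mul_comm (e ^ j) (e + 1), neg_pow, zpow_mul]
          congr 1
        simp only [h8]
        rcases Nat.even_or_odd j with hje | hjo
        · rw [hje.neg_one_pow]
          simp only [zpow_one]
          rw [← Equiv.sum_comp (Equiv.mulRight (w ^ (e + 1)))
            (fun x : Lˣ => ψ (((1 : Lˣ) : L) * (x : L) ^ e ^ j))]
          refine sum_congr rfl fun t _ => ?_
          rw [Equiv.coe_mulRight]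
          push_cast
          rw [one_mul]
        · rw [hjo.neg_one_pow]
          simp only [zpow_neg, zpow_one]
          rw [← Equiv.sum_comp ((Equiv.inv Lˣ).trans (Equiv.mulRight (w ^ (e + 1))))
            (fun x : Lˣ => ψ (((1 : Lˣ) : L) * (x : L) ^ e ^ j))]
          refine sum_congr rfl fun t _ => ?_
          rw [Equiv.trans_apply, Equiv.coe_mulRight, Equiv.inv_apply]
          rw [Units.val_one, one_mul, Units.val_pow_eq_pow_val]
      simp only [h7]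
      rw [sum_const, card_univ, nsmul_eq_mul, hcard, H.SS_ind h hj', ind_one, mul_one]
    rw [neg_pow, mul_assoc, h5]
    ring
  rw [sum_congr rfl h3, ← mul_sum, sum_sub_distrib, ← sum_mul, sum_sign, ← mul_sum]
  by_cases hk2 : Even n
  · rw [if_pos hk2, if_pos hk2]
    ring
  · rw [if_neg hk2, if_neg hk2]
    ring

end SHC
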