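import Pool.Agent.SHC.Chain

/-!
# SHC.Count: the number of zeros of `x_0 ^ e x_1 + ⋯ + x_(n-1) ^ e x_n + x_n ^ (e + 1)`
-/

namespace SHC

open Finset
open scoped LinearAlgebra.Projectivization

variable {L : Type*} [Field L]

/-- The form. -/
def FF (e n : ℕ) (x : Fin (n + 1) → L) : L :=
  ∑ i : Fin n, x i.castSucc ^ e * x i.succ + x (Fin.last n) ^ (e + 1)

theorem FF_smul (e n : ℕ) (c : L) (x : Fin (n + 1) → L) :
    FF e n (c • x) = c ^ (e + 1) * FF e n x := by
  unfold FF
  rw [mul_add, mul_sum]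
  congr 1
  · refine sum_congr rfl fun i _ => ?_
    simp only [Pi.smul_apply, smul_eq_mul]
    ring
  · simp only [Pi.smul_apply, smul_eq_mul]
    ring

variable [Fintype L] [DecidableEq L] {ψ : AddChar L ℂ}

theorem chain_sum (ψ : AddChar L ℂ) (e : ℕ) (t : L) (k : ℕ) (g : L → ℂ) :
    ∑ x : Fin (k + 1) → L, ψ (t * ∑ i : Fin k, x i.castSucc ^ e * x i.succ) * g (x (Fin.last k)) =
      ∑ y, V ψ e t k y * g y := by
  induction k generalizing g with
  | zero =>
    refine Fintype.sum_equiv (Equiv.funUnique (Fin 1) L) _ _ fun x => ?_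
    simp [V]
  | succ k ih =>
    rw [← Equiv.sum_comp (Fin.snocEquiv (fun _ : Fin (k + 2) => L)), Fintype.sum_prod_type]
    refine sum_congr rfl fun y _ => ?_
    rw [V, ← ih (fun x => ψ (t * (x ^ e * y))), sum_mul]
    refine sum_congr rfl fun x _ => ?_
    rw [Fin.sum_univ_castSucc, mul_add, AddChar.map_add_eq_mul]
    have e1 : ∀ i : Fin k, (Fin.snoc x y : Fin (k + 2) → L) i.castSucc.succ = x i.succ := by
      intro i
      rw [Fin.succ_castSucc]
      exact Fin.snoc_castSucc (α := fun _ => L) y x i.succ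
    have e2 : ∀ i : Fin (k + 1), (Fin.snoc x y : Fin (k + 2) → L) i.castSucc = x i := fun i =>
      Fin.snoc_castSucc (α := fun _ => L) y x i
    have e3 : (Fin.snoc x y : Fin (k + 2) → L) (Fin.last (k + 1)) = y :=
      Fin.snoc_last (α := fun _ => L) y x
    have e4 : (Fin.snoc x y : Fin (k + 2) → L) (Fin.last k).succ = y := e3
    simp only [Fin.snocEquiv_apply, e1, e2, e3, e4]


variable {p : ℕ} [Fact p.Prime] [CharP L p] {a u R T e n : ℕ}

theorem Hyp.count (H : Hyp L p a u R T e n) (h : Adm p ψ) (hn : 1 ≤ n) :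
    ((univ.filter fun x : Fin (n + 1) → L => FF e n x = 0).card : ℤ) =
      R ^ (2 * n) + (R ^ 2 - 1) * R ^ (n - 1) * (1 - ∑ j ∈ range (n + 1), (-(e : ℤ)) ^ j) := by
  have hR1 : 1 ≤ R := by
    rw [H.toPar.hR]
    exact Nat.le_add_left 1 _
  set N : ℕ := (univ.filter fun x : Fin (n + 1) → L => FF e n x = 0).card with hN
  -- the sum over all frequencies
  have h1 : ∑ t : L, ∑ x : Fin (n + 1) → L, ψ (t * FF e n x) = (R : ℂ) ^ 2 * N := by
    rw [sum_comm]
    have h2 : ∀ x : Fin (n + 1) → L, ∑ t : L, ψ (t * FF e n x) =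
        if FF e n x = 0 then (R : ℂ) ^ 2 else 0 := by
      intro x
      rw [AddChar.sum_mulShift _ h.prim, H.toPar.hcard]
      push_cast
      by_cases hx : FF e n x = 0
      · rw [if_pos hx, if_pos hx]
        ring
      · rw [if_neg hx, if_neg hx]
    rw [sum_congr rfl fun x _ => h2 x, ← sum_filter, sum_const, nsmul_eq_mul, mul_comm]
  have h3 : ∑ t : L, ∑ x : Fin (n + 1) → L, ψ (t * FF e n x) =
      (R : ℂ) ^ (2 * (n + 1)) + ∑ t : Lˣ, ∑ y : L, V ψ e (t : L) n y * ψ ((t : L) * y ^ (e + 1)) := by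
    rw [sum_units]
    congr 1
    · simp only [zero_mul, AddChar.map_zero_eq_one]
      rw [sum_const, card_univ, Fintype.card_fun, Fintype.card_fin, H.toPar.hcard, nsmul_eq_mul,
        mul_one]
      push_cast
      rw [← pow_two, ← pow_mul]
    · refine sum_congr rfl fun t _ => ?_
      rw [← chain_sum ψ e (t : L) n (fun y => ψ ((t : L) * y ^ (e + 1)))]
      refine sum_congr rfl fun x _ => ?_
      unfold FF
      rw [mul_add, AddChar.map_add_eq_mul]
  rw [h3, H.total h hn] at h1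
  have h4 : (R : ℤ) ^ 2 * N = (R : ℤ) ^ 2 *
      (R ^ (2 * n) + (R ^ 2 - 1) * R ^ (n - 1) * (1 - ∑ j ∈ range (n + 1), (-(e : ℤ)) ^ j)) := by
    have h5 : (((R : ℤ) ^ 2 * N : ℤ) : ℂ) = (((R : ℤ) ^ 2 *
      (R ^ (2 * n) + (R ^ 2 - 1) * R ^ (n - 1) *
        (1 - ∑ j ∈ range (n + 1), (-(e : ℤ)) ^ j)) : ℤ) : ℂ) := by
      push_cast
      rw [← h1]
      obtain ⟨m, rfl⟩ : ∃ m, n = m + 1 := ⟨n - 1, by omega⟩
      rw [Nat.add_sub_cancel]
      ring
    exact_mod_cast h5
  have hR2 : (R : ℤ) ^ 2 ≠ 0 := by positivity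
  exact mul_left_cancel₀ hR2 h4

/-- The number of points of the projective hypersurface. -/
theorem proj_count {q : ℕ} (hq : Fintype.card L = q) :
    ((univ.filter fun x : Fin (n + 1) → L => FF e n x = 0).card : ℤ) =
      1 + (q - 1) * (Nat.card {P : ℙ L (Fin (n + 1) → L) // FF e n P.rep = 0} : ℤ) := by
  have hmap : Function.Bijective (fun w : Lˣ × {P : ℙ L (Fin (n + 1) → L) // FF e n P.rep = 0} =>
      (⟨(w.1 : L) • w.2.1.rep, by
        refine ⟨?_, ?_⟩
        · rw [FF_smul, w.2.2, mul_zero]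
        · exact smul_ne_zero w.1.ne_zero w.2.1.rep_nonzero⟩ :
        {x : Fin (n + 1) → L // FF e n x = 0 ∧ x ≠ 0})) := by
    constructor
    · rintro ⟨c, P, hP⟩ ⟨c', P', hP'⟩ hcc
      have h1 : (c : L) • P.rep = (c' : L) • P'.rep := congrArg Subtype.val hcc
      have h2 : P = P' := by
        rw [← P.mk_rep, ← P'.mk_rep, Projectivization.mk_eq_mk_iff]
        refine ⟨c⁻¹ * c', ?_⟩
        rw [mul_smul, Units.smul_def c', ← h1, ← Units.smul_def c, inv_smul_smul]
      subst h2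
      have h3 : (c : L) = c' := smul_left_injective L P.rep_nonzero h1
      rw [Units.ext h3]
    · rintro ⟨x, hx, hx0⟩
      obtain ⟨c, hc⟩ := Projectivization.exists_smul_eq_mk_rep L x hx0
      refine ⟨⟨c⁻¹, ⟨Projectivization.mk L x hx0, ?_⟩⟩, ?_⟩
      · rw [← hc, Units.smul_def, FF_smul, hx, mul_zero]
      · apply Subtype.ext
        change ((c⁻¹ : Lˣ) : L) • (Projectivization.mk L x hx0).rep = x
        rw [← hc, ← Units.smul_def, inv_smul_smul]
  have h1 := Nat.card_congr (Equiv.ofBijective _ hmap)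
  rw [Nat.card_prod, Nat.card_eq_fintype_card (α := Lˣ), Fintype.card_units, hq] at h1
  have h2 : (univ.filter fun x : Fin (n + 1) → L => FF e n x = 0).card =
      1 + Nat.card {x : Fin (n + 1) → L // FF e n x = 0 ∧ x ≠ 0} := by
    rw [Nat.card_eq_fintype_card, Fintype.card_subtype]
    have h3 : (univ.filter fun x : Fin (n + 1) → L => FF e n x = 0) =
        insert 0 (univ.filter fun x : Fin (n + 1) → L => FF e n x = 0 ∧ x ≠ 0) := by
      ext x
      rw [mem_insert, mem_filter, mem_filter]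
      by_cases hx : x = 0
      · subst hx
        have : FF e n (0 : Fin (n + 1) → L) = 0 := by
          have := FF_smul e n (0 : L) (0 : Fin (n + 1) → L)
          rw [smul_zero, zero_pow (Nat.succ_ne_zero e), zero_mul] at this
          exact this
        simp [this]
      · simp [hx]
    rw [h3, card_insert_of_notMem, add_comm]
    intro h4
    exact (mem_filter.1 h4).2.2 rfl
  have hq1 : 1 ≤ q := by
    rw [← hq]
    exact Fintype.card_pos
  rw [h2, ← h1]
  push_cast [Nat.cast_sub hq1]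
  ring

theorem Hyp.proj (H : Hyp L p a u R T e n) (h : Adm p ψ) (hn : 1 ≤ n) :
    (Nat.card {P : ℙ L (Fin (n + 1) → L) // FF e n P.rep = 0} : ℤ) =
      ∑ i ∈ range n, (R : ℤ) ^ (2 * i) +
        (1 - ∑ j ∈ range (n + 1), (-(e : ℤ)) ^ j) * R ^ (n - 1) := by
  have h1 := H.count h hn
  rw [proj_count H.toPar.hcard] at h1
  have h2 : ((R : ℤ) ^ 2 - 1) * ∑ i ∈ range n, (R : ℤ) ^ (2 * i) = R ^ (2 * n) - 1 := by
    have := mul_geom_sum ((R : ℤ) ^ 2) n
    simp only [← pow_mul] at this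
    exact this
  have hR1 : 2 ≤ R := by
    rw [H.toPar.hR]
    have := H.toPar.hu1
    have := H.toPar.hT
    have h3 : 1 * 1 * 1 ≤ u * (u + 2) * T := Nat.mul_le_mul (Nat.mul_le_mul (by omega) (by omega)) this
    omega
  have h3 : ((R : ℤ) ^ 2 - 1) ≠ 0 := by
    have : (2 : ℤ) ≤ R := by exact_mod_cast hR1
    nlinarith
  refine mul_left_cancel₀ h3 ?_
  push_cast at h1
  linear_combination h1 - h2

end SHC
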