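import Pool.Agent.SHC.Semi

/-!
# SHC.HD: products of Gauss sums in the group algebra

`L` a finite field with `R ^ 2` elements, `K` its subfield with `R` elements, `D ∣ R - 1`.  In the
group algebra of `Lˣ` we consider `aL c = ∑ x, ψ x [x ^ ((R + 1) M c)]` and
`bK c = ∑ a ∈ K, φ a [a ^ (M c)]`, `M = (R - 1) / D`, where `φ (x + x ^ R) = ψ x`.  We prove the
relation of Hasse and Davenport `aL c = -(bK c) ^ 2` and the product formula
`bK c * bK (-c) = R - Θ`.
-/

namespace SHC

open Finset MonoidAlgebra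

/-- The data: `R = p ^ r`, `#L = R ^ 2`, `D M = R - 1`. -/
structure Dat (L : Type*) [Field L] [Fintype L] (p r R D M : ℕ) : Prop where
  hR : R = p ^ r
  hcard : Fintype.card L = R * R
  hD : D * M + 1 = R
  hneg : (-1 : L) ^ M = 1

variable {L : Type*} [Field L] [Fintype L] [DecidableEq L] {p : ℕ} {ψ : AddChar L ℂ}
  [Fact p.Prime] [CharP L p] {r R D M : ℕ}

omit [DecidableEq L] [Fact p.Prime] [CharP L p] in
theorem Dat.two_le (H : Dat L p r R D M) : 2 ≤ R := by
  have h1 : 1 < Fintype.card L := Fintype.one_lt_card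
  rw [H.hcard] at h1
  by_contra h2
  have : R ≤ 1 := by omega
  nlinarith

omit [DecidableEq L] [Fact p.Prime] [CharP L p] in
theorem Dat.DM_pos (H : Dat L p r R D M) : 1 ≤ D * M := by
  have := H.two_le
  have := H.hD
  omega

omit [DecidableEq L] [Fact p.Prime] [CharP L p] in
theorem Dat.D_pos (H : Dat L p r R D M) : 0 < D := by
  rcases Nat.eq_zero_or_pos D with h | h
  · have := H.DM_pos
    rw [h, zero_mul] at this
    omega
  · exact h

omit [Fact p.Prime] [CharP L p] in
theorem Dat.card_units (H : Dat L p r R D M) : (D * M) * (R + 1) = Fintype.card Lˣ := by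
  rw [Fintype.card_units, H.hcard]
  have h1 := H.hD
  have h2 : R * R = (D * M) * (R + 1) + 1 := by
    obtain ⟨k, hk⟩ : ∃ k, D * M = k := ⟨_, rfl⟩
    rw [hk] at h1 ⊢
    subst h1
    ring
  rw [h2]
  rfl

omit [DecidableEq L] in
theorem Dat.add_pow (H : Dat L p r R D M) (x y : L) : (x + y) ^ R = x ^ R + y ^ R := by
  rw [H.hR]
  exact add_pow_char_pow x y p r

omit [DecidableEq L] [Fact p.Prime] [CharP L p] in
theorem Dat.pow_pow (H : Dat L p r R D M) (x : L) : (x ^ R) ^ R = x := by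
  rw [← pow_mul, ← H.hcard, FiniteField.pow_card]

/-- The subfield with `R` elements. -/
def KF (L : Type*) [Field L] [Fintype L] [DecidableEq L] (R : ℕ) : Finset L :=
  univ.filter fun a : L => a ^ R = a

/-- The units of the subfield with `R` elements. -/
def KS (L : Type*) [Field L] [Fintype L] [DecidableEq L] (R : ℕ) : Finset Lˣ :=
  univ.filter fun a : Lˣ => (a : L) ^ R = a

omit [Fact p.Prime] [CharP L p] in
theorem mem_KF {a : L} : a ∈ KF L R ↔ a ^ R = a := by
  unfold KF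
  rw [mem_filter]
  exact and_iff_right (mem_univ _)

omit [Fact p.Prime] [CharP L p] in
theorem mem_KS {a : Lˣ} : a ∈ KS L R ↔ (a : L) ^ R = a := by
  unfold KS
  rw [mem_filter]
  exact and_iff_right (mem_univ _)

omit [Fact p.Prime] [CharP L p] in
theorem Dat.mem_KS' (H : Dat L p r R D M) {a : Lˣ} : a ∈ KS L R ↔ a ^ (D * M) = 1 := by
  rw [mem_KS, ← H.hD, pow_succ]
  constructor
  · intro h
    have h1 : ((a : L) ^ (D * M) - 1) * a = 0 := by linear_combination h
    have h2 := (mul_eq_zero.1 h1).resolve_right a.ne_zero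
    ext
    push_cast
    linear_combination h2
  · intro h
    have h1 := congrArg Units.val h
    push_cast at h1
    rw [h1, one_mul]

omit [Fact p.Prime] [CharP L p] in
theorem Dat.card_KS (H : Dat L p r R D M) : (KS L R).card = D * M := by
  rw [← card_pow_one H.card_units]
  congr 1
  ext a
  rw [H.mem_KS', mem_filter]
  exact (and_iff_right (mem_univ _)).symm

omit [Fact p.Prime] [CharP L p] in
theorem KF_eq (hR : R ≠ 0) : KF L R =
    insert 0 ((KS L R).map ⟨Units.val, Units.val_injective⟩) := by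
  ext a
  rw [mem_KF, mem_insert, mem_map]
  constructor
  · intro h
    by_cases h0 : a = 0
    · exact Or.inl h0
    · exact Or.inr ⟨Units.mk0 a h0, mem_KS.2 h, rfl⟩
  · rintro (rfl | ⟨y, hy, rfl⟩)
    · exact zero_pow hR
    · exact mem_KS.1 hy

omit [Fact p.Prime] [CharP L p] in
theorem zero_notMem_map : (0 : L) ∉ (KS L R).map ⟨Units.val, Units.val_injective⟩ := by
  intro h
  obtain ⟨y, -, hy⟩ := mem_map.1 h
  exact y.ne_zero hy

omit [Fact p.Prime] [CharP L p] in
theorem Dat.sum_KF (H : Dat L p r R D M) {A : Type*} [AddCommMonoid A] (f : L → A) :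
    ∑ a ∈ KF L R, f a = f 0 + ∑ a ∈ KS L R, f (a : L) := by
  have := H.two_le
  rw [KF_eq (by omega), sum_insert zero_notMem_map, sum_map]
  rfl

omit [Fact p.Prime] [CharP L p] in
theorem Dat.card_KF (H : Dat L p r R D M) : (KF L R).card = R := by
  have := H.two_le
  rw [KF_eq (by omega), card_insert_of_notMem zero_notMem_map, card_map, H.card_KS, H.hD]

omit [DecidableEq L] in
theorem Dat.add_mem (H : Dat L p r R D M) [DecidableEq L] {a b : L} (ha : a ∈ KF L R)
    (hb : b ∈ KF L R) : a + b ∈ KF L R := by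
  rw [mem_KF] at ha hb ⊢
  rw [H.add_pow, ha, hb]

theorem mul_mem_KS {a b : Lˣ} (ha : a ∈ KS L R) (hb : b ∈ KS L R) : a * b ∈ KS L R := by
  rw [mem_KS] at ha hb ⊢
  rw [Units.val_mul, mul_pow, ha, hb]

theorem inv_mem_KS {a : Lˣ} (ha : a ∈ KS L R) : a⁻¹ ∈ KS L R := by
  rw [mem_KS] at ha ⊢
  rw [Units.val_inv_eq_inv_val, inv_pow, ha]

/-- An element with trace one. -/
theorem Dat.exists_theta (H : Dat L p r R D M) : ∃ θ : L, θ + θ ^ R = 1 := by
  obtain ⟨x, hx⟩ : ∃ x : L, x + x ^ R ≠ 0 := by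
    by_contra hcon
    push Not at hcon
    have h1 : KS L R = univ := by
      ext a
      rw [mem_KS]
      have h2 := hcon (a : L)
      have h3 := hcon (1 : L)
      rw [one_pow] at h3
      have h4 : (a : L) ^ R = a := by linear_combination h2 - (a : L) * h3
      exact iff_of_true h4 (mem_univ _)
    have h2 := H.card_KS
    rw [h1, card_univ, ← H.card_units] at h2
    have h3 := H.two_le
    have h4 := H.DM_pos
    nlinarith
  have h1 : (x + x ^ R) ^ R = x + x ^ R := by
    rw [H.add_pow, H.pow_pow, add_comm]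
  refine ⟨x / (x + x ^ R), ?_⟩
  rw [div_pow, h1, ← add_div, div_self hx]

/-! ### The pairs trace and norm -/

/-- trace and norm -/
def g1 (R : ℕ) (x : Lˣ) : L × Lˣ := ((x : L) + (x : L) ^ R, x ^ (R + 1))

/-- sum and product -/
def g2 (w : Lˣ × Lˣ) : L × Lˣ := ((w.1 : L) + (w.2 : L), w.1 * w.2)

theorem Dat.g1_mem (H : Dat L p r R D M) (x : Lˣ) : g1 R x ∈ KF L R ×ˢ KS L R := by
  unfold g1
  rw [mem_product, mem_KF, mem_KS]
  refine ⟨?_, ?_⟩
  · rw [H.add_pow, H.pow_pow, add_comm]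
  · push_cast
    rw [pow_succ, mul_pow, H.pow_pow, mul_comm]

theorem Dat.g2_mem (H : Dat L p r R D M) {w : Lˣ × Lˣ} (hw : w ∈ KS L R ×ˢ KS L R) :
    g2 w ∈ KF L R ×ˢ KS L R := by
  unfold g2
  rw [mem_product] at hw ⊢
  exact ⟨H.add_mem (mem_KF.2 (mem_KS.1 hw.1)) (mem_KF.2 (mem_KS.1 hw.2)), mul_mem_KS hw.1 hw.2⟩

theorem two_roots {s : L} {n a b x : L} (h1 : a + b = s) (h2 : a * b = n)
    (h3 : x * x - s * x + n = 0) : x = a ∨ x = b := by
  subst h1 h2
  have h4 : (x - a) * (x - b) = 0 := by linear_combination h3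
  rcases mul_eq_zero.1 h4 with h5 | h5
  · exact Or.inl (sub_eq_zero.1 h5)
  · exact Or.inr (sub_eq_zero.1 h5)

theorem fibers_le (y : L × Lˣ) :
    (univ.filter fun x : Lˣ => g1 R x = y).card +
      ((KS L R ×ˢ KS L R).filter fun w => g2 w = y).card ≤ 2 := by
  obtain ⟨s, n⟩ := y
  have hA : ∀ x : Lˣ, g1 R x = (s, n) → (x : L) * x - s * x + n = 0 := by
    intro x hx
    unfold g1 at hx
    rw [Prod.mk.injEq] at hx
    have h1 := congrArg Units.val hx.2
    push_cast at h1
    rw [← hx.1, ← h1, pow_succ]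
    ring
  rcases ((KS L R ×ˢ KS L R).filter fun w => g2 w = (s, n)).eq_empty_or_nonempty with hB | hB
  · rw [hB, card_empty, add_zero]
    rcases (univ.filter fun x : Lˣ => g1 R x = (s, n)).eq_empty_or_nonempty with hA0 | ⟨x0, hx0⟩
    · rw [hA0, card_empty]
      omega
    · rw [mem_filter] at hx0
      have h1 : (univ.filter fun x : Lˣ => g1 R x = (s, n)) ⊆ {x0, x0 ^ R} := by
        intro x hx
        rw [mem_filter] at hx
        have h2 := hA x hx.2
        have h3 := hx0.2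
        unfold g1 at h3
        rw [Prod.mk.injEq] at h3
        have h4 := congrArg Units.val h3.2
        rw [pow_succ, Units.val_mul, Units.val_pow_eq_pow_val] at h4
        rw [mem_insert, mem_singleton]
        rcases two_roots (a := (x0 : L)) (b := (x0 : L) ^ R) h3.1 (by rw [mul_comm]; exact h4) h2
          with h5 | h5
        · exact Or.inl (Units.ext h5)
        · exact Or.inr (Units.ext (by rw [h5, Units.val_pow_eq_pow_val]))
      exact (card_le_card h1).trans card_le_two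
  · obtain ⟨⟨a, b⟩, hab⟩ := hB
    rw [mem_filter, mem_product] at hab
    obtain ⟨⟨ha, hb⟩, hab⟩ := hab
    unfold g2 at hab
    rw [Prod.mk.injEq] at hab
    obtain ⟨h1, h2⟩ := hab
    have h2' : (a : L) * b = n := by
      rw [← h2]
      rfl
    dsimp only at h1 ha hb
    have hBs : ((KS L R ×ˢ KS L R).filter fun w => g2 w = (s, n)) ⊆ {(a, b), (b, a)} := by
      rintro ⟨a', b'⟩ hw
      rw [mem_filter] at hw
      have h3 := hw.2
      unfold g2 at h3
      rw [Prod.mk.injEq] at h3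
      obtain ⟨h3, h4⟩ := h3
      have h4' : (a' : L) * b' = n := by
        rw [← h4]
        rfl
      dsimp only at h3
      have h5 : (a' : L) * a' - s * a' + n = 0 := by
        rw [← h3, ← h4']
        ring
      rw [mem_insert, mem_singleton, Prod.mk.injEq, Prod.mk.injEq]
      rcases two_roots h1 h2' h5 with h6 | h6
      · refine Or.inl ⟨Units.ext h6, Units.ext ?_⟩
        linear_combination h3 - h1 - h6
      · refine Or.inr ⟨Units.ext h6, Units.ext ?_⟩
        linear_combination h3 - h1 - h6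
    have hAs : ∀ x : Lˣ, g1 R x = (s, n) → a = b ∧ x = a := by
      intro x hx
      have h3 := hA x hx
      unfold g1 at hx
      rw [Prod.mk.injEq] at hx
      rcases two_roots h1 h2' h3 with h4 | h4
      · have h5 : (x : L) ^ R = x := by
          rw [h4]
          exact mem_KS.1 ha
        have h6 : (x : L) + x = s := by rw [← hx.1, h5]
        refine ⟨Units.ext ?_, Units.ext h4⟩
        rw [h4, ← h1] at h6
        exact add_left_cancel h6
      · have h5 : (x : L) ^ R = x := by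
          rw [h4]
          exact mem_KS.1 hb
        have h6 : (x : L) + x = s := by rw [← hx.1, h5]
        rw [h4, ← h1] at h6
        have h7 : (a : L) = b := (add_right_cancel h6).symm
        exact ⟨Units.ext h7, Units.ext (by rw [h4, h7])⟩
    by_cases hne : a = b
    · subst hne
      have h3 : (univ.filter fun x : Lˣ => g1 R x = (s, n)) ⊆ {a} := by
        intro x hx
        rw [mem_filter] at hx
        rw [mem_singleton]
        exact (hAs x hx.2).2
      have h4 := card_le_card h3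
      have h5 := card_le_card hBs
      rw [insert_eq_of_mem (mem_singleton_self _)] at h5
      rw [card_singleton] at h4 h5
      omega
    · have h3 : (univ.filter fun x : Lˣ => g1 R x = (s, n)) = ∅ := by
        rw [filter_eq_empty_iff]
        intro x _ hx
        exact hne (hAs x hx).1
      rw [h3, card_empty, zero_add]
      exact (card_le_card hBs).trans card_le_two

theorem Dat.fibers_eq (H : Dat L p r R D M) {y : L × Lˣ} (hy : y ∈ KF L R ×ˢ KS L R) :
    (univ.filter fun x : Lˣ => g1 R x = y).card +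
      ((KS L R ×ˢ KS L R).filter fun w => g2 w = y).card = 2 := by
  have h1 : ∑ y ∈ KF L R ×ˢ KS L R, ((univ.filter fun x : Lˣ => g1 R x = y).card +
      ((KS L R ×ˢ KS L R).filter fun w => g2 w = y).card) = ∑ y ∈ KF L R ×ˢ KS L R, 2 := by
    rw [sum_add_distrib, ← card_eq_sum_card_fiberwise (fun x _ => H.g1_mem x),
      ← card_eq_sum_card_fiberwise (fun w hw => H.g2_mem hw), sum_const, card_product, card_product,
      H.card_KS, H.card_KF, card_univ, ← H.card_units, smul_eq_mul]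
    have h2 := H.hD
    obtain ⟨k, hk⟩ : ∃ k, D * M = k := ⟨_, rfl⟩
    rw [hk] at h2 ⊢
    subst h2
    ring
  exact (sum_eq_sum_iff_of_le fun y _ => fibers_le y).1 h1 y hy

theorem Dat.sum_pairs (H : Dat L p r R D M) {A : Type*} [AddCommMonoid A] (f : L × Lˣ → A) :
    ∑ x : Lˣ, f (g1 R x) + ∑ w ∈ KS L R ×ˢ KS L R, f (g2 w) =
      ∑ y ∈ KF L R ×ˢ KS L R, (2 : ℕ) • f y := by
  rw [← sum_fiberwise_of_maps_to (fun x _ => H.g1_mem x),
    ← sum_fiberwise_of_maps_to (fun w hw => H.g2_mem hw), ← sum_add_distrib]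
  refine sum_congr rfl fun y hy => ?_
  have h1 : ∑ x ∈ univ.filter (fun x : Lˣ => g1 R x = y), f (g1 R x) =
      (univ.filter (fun x : Lˣ => g1 R x = y)).card • f y := by
    rw [← sum_const]
    exact sum_congr rfl fun x hx => by rw [(mem_filter.1 hx).2]
  have h2 : ∑ w ∈ (KS L R ×ˢ KS L R).filter (fun w => g2 w = y), f (g2 w) =
      ((KS L R ×ˢ KS L R).filter (fun w => g2 w = y)).card • f y := by
    rw [← sum_const]
    exact sum_congr rfl fun x hx => by rw [(mem_filter.1 hx).2]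
  rw [h1, h2, ← add_smul, H.fibers_eq hy]

/-! ### The character of the subfield -/

/-- The character `φ a = ψ (θ a)` of the subfield, `θ + θ ^ R = 1`. -/
structure Phi (R : ℕ) (ψ : AddChar L ℂ) (θ : L) : Prop where
  hθ : θ + θ ^ R = 1

theorem Dat.phi_trace (H : Dat L p r R D M) (h : Adm p ψ) {θ : L} (hθ : θ + θ ^ R = 1) (x : L) :
    ψ (θ * (x + x ^ R)) = ψ x := by
  have h1 : ψ (θ * x ^ R) = ψ (θ ^ R * x) := by
    rw [← h.frob_pow r (θ ^ R * x), ← H.hR, mul_pow, H.pow_pow]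
  rw [mul_add, AddChar.map_add_eq_mul, h1, ← AddChar.map_add_eq_mul, ← add_mul, hθ, one_mul]

theorem Dat.phi_frob (H : Dat L p r R D M) (h : Adm p ψ) {θ : L} (hθ : θ + θ ^ R = 1) {a : L}
    (ha : a ^ R = a) : ψ (θ * a ^ p) = ψ (θ * a) := by
  have h1 : a = θ * a + (θ * a) ^ R := by
    rw [mul_pow, ha, ← add_mul, hθ, one_mul]
  have h2 : a ^ p = (θ * a) ^ p + ((θ * a) ^ p) ^ R := by
    rw [← pow_mul, mul_comm p R, pow_mul, ← add_pow_char, ← h1]
  rw [h2, H.phi_trace h hθ, h.frob]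

theorem Dat.sum_phi (H : Dat L p r R D M) (h : Adm p ψ) {θ : L} (hθ : θ + θ ^ R = 1) {k : L}
    (hk : k ∈ KF L R) (hk0 : k ≠ 0) : ∑ s ∈ KF L R, ψ (θ * (k * s)) = 0 := by
  -- a point where the character is not one
  obtain ⟨y, hy⟩ : ∃ y : L, ψ y ≠ 1 := by
    have h1 := h.prim
    by_contra hcon
    push Not at hcon
    have h2 := AddChar.sum_mulShift (1 : L) h1
    rw [if_neg one_ne_zero] at h2
    simp only [mul_one] at h2
    rw [sum_congr rfl fun x _ => hcon x, sum_const, card_univ, nsmul_eq_mul, mul_one,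
      Nat.cast_zero] at h2
    exact Nat.cast_ne_zero.2 Fintype.card_ne_zero h2
  have hk' := mem_KF.1 hk
  set s0 : L := k⁻¹ * (y + y ^ R) with hs0
  have hs0K : s0 ∈ KF L R := by
    rw [mem_KF, hs0, mul_pow, inv_pow, hk', H.add_pow, H.pow_pow, add_comm (y ^ R)]
  have h1 : ψ (θ * (k * s0)) = ψ y := by
    rw [hs0, mul_inv_cancel_left₀ hk0, H.phi_trace h hθ]
  have h2 : ∑ s ∈ KF L R, ψ (θ * (k * s)) = ∑ s ∈ KF L R, ψ (θ * (k * (s + s0))) := by
    symm
    refine sum_nbij' (fun s => s + s0) (fun s => s - s0) ?_ ?_ ?_ ?_ ?_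
    · intro s hs
      exact H.add_mem hs hs0K
    · intro s hs
      have h3 : (s - s0 + s0) ^ R = (s - s0) ^ R + s0 ^ R := H.add_pow _ _
      rw [sub_add_cancel, mem_KF.1 hs, mem_KF.1 hs0K] at h3
      rw [mem_KF]
      linear_combination -h3
    · intro s _
      exact add_sub_cancel_right s s0
    · intro s _
      exact sub_add_cancel s s0
    · intro s _
      rfl
  have h3 : ∑ s ∈ KF L R, ψ (θ * (k * (s + s0))) = ψ y * ∑ s ∈ KF L R, ψ (θ * (k * s)) := by
    rw [mul_sum]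
    refine sum_congr rfl fun s _ => ?_
    rw [mul_add, mul_add, AddChar.map_add_eq_mul, h1, mul_comm]
  rw [h3] at h2
  have h4 : (ψ y - 1) * ∑ s ∈ KF L R, ψ (θ * (k * s)) = 0 := by linear_combination -h2
  exact (mul_eq_zero.1 h4).resolve_left (sub_ne_zero.2 hy)

theorem Dat.sum_phi_units (H : Dat L p r R D M) (h : Adm p ψ) {θ : L} (hθ : θ + θ ^ R = 1) {k : L}
    (hk : k ∈ KF L R) : ∑ s ∈ KS L R, ψ (θ * (k * (s : L))) =
      (if k = 0 then (R : ℂ) else 0) - 1 := by
  by_cases hk0 : k = 0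
  · rw [if_pos hk0]
    have h1 : ∀ s ∈ KS L R, ψ (θ * (k * (s : L))) = 1 := by
      intro s _
      rw [hk0, zero_mul, mul_zero, AddChar.map_zero_eq_one]
    rw [sum_congr rfl h1, sum_const, H.card_KS, nsmul_eq_mul, mul_one]
    have h2 := H.hD
    rw [← h2]
    push_cast
    ring
  · rw [if_neg hk0]
    have h1 := H.sum_phi h hθ hk hk0
    rw [H.sum_KF, mul_zero, mul_zero, AddChar.map_zero_eq_one] at h1
    linear_combination h1

/-! ### The group algebra -/

/-- The Gauss sums of the big field. -/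
noncomputable def aL (ψ : AddChar L ℂ) (R M : ℕ) (c : ℤ) : MonoidAlgebra ℂ Lˣ :=
  ∑ x : Lˣ, single ((x ^ ((R + 1) * M)) ^ c) (ψ (x : L))

/-- The Gauss sums of the subfield. -/
noncomputable def bK (ψ : AddChar L ℂ) (θ : L) (R M : ℕ) (c : ℤ) : MonoidAlgebra ℂ Lˣ :=
  ∑ a ∈ KS L R, single ((a ^ M) ^ c) (ψ (θ * (a : L)))

/-- The sum of the group elements. -/
noncomputable def Th (L : Type*) [Field L] [Fintype L] [DecidableEq L] (R M : ℕ) (c : ℤ) :
    MonoidAlgebra ℂ Lˣ :=
  ∑ a ∈ KS L R, single ((a ^ M) ^ c) 1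

/-- The relation of Hasse and Davenport for the quadratic extension. -/
theorem Dat.hasse_davenport (H : Dat L p r R D M) (h : Adm p ψ) {θ : L} (hθ : θ + θ ^ R = 1)
    (c : ℤ) : aL ψ R M c = -(bK ψ θ R M c) ^ 2 := by
  have h1 := H.sum_pairs (fun y : L × Lˣ =>
    (single ((y.2 ^ M) ^ c) (ψ (θ * y.1)) : MonoidAlgebra ℂ Lˣ))
  have h2 : ∑ x : Lˣ, (single (((g1 R x).2 ^ M) ^ c) (ψ (θ * (g1 R x).1)) :
      MonoidAlgebra ℂ Lˣ) = aL ψ R M c := by
    unfold aL g1
    refine sum_congr rfl fun x _ => ?_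
    dsimp only
    rw [H.phi_trace h hθ, ← pow_mul]
  have h3 : ∑ w ∈ KS L R ×ˢ KS L R, (single (((g2 w).2 ^ M) ^ c) (ψ (θ * (g2 w).1)) :
      MonoidAlgebra ℂ Lˣ) = (bK ψ θ R M c) ^ 2 := by
    unfold bK g2
    rw [pow_two, sum_mul_sum, sum_product]
    refine sum_congr rfl fun a _ => sum_congr rfl fun b _ => ?_
    dsimp only
    rw [single_mul_single, mul_pow, mul_zpow, mul_add, AddChar.map_add_eq_mul]
  have h4 : ∑ y ∈ KF L R ×ˢ KS L R, (2 : ℕ) •
      (single ((y.2 ^ M) ^ c) (ψ (θ * y.1)) : MonoidAlgebra ℂ Lˣ) = 0 := by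
    rw [← smul_sum, sum_product_right]
    have h5 : ∀ n ∈ KS L R, ∑ s ∈ KF L R,
        (single ((n ^ M) ^ c) (ψ (θ * s)) : MonoidAlgebra ℂ Lˣ) = 0 := by
      intro n _
      have h6 := H.sum_phi h hθ (k := 1) (mem_KF.2 (one_pow _)) one_ne_zero
      simp only [one_mul] at h6
      have h7 : ∑ s ∈ KF L R, (single ((n ^ M) ^ c) (ψ (θ * s)) : MonoidAlgebra ℂ Lˣ) =
          singleAddHom ((n ^ M) ^ c) (∑ s ∈ KF L R, ψ (θ * s)) := by
        rw [map_sum]
        rfl
      rw [h7, h6, map_zero]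
    rw [sum_eq_zero h5, smul_zero]
  rw [h2, h3, h4] at h1
  exact eq_neg_of_add_eq_zero_left h1

/-- The exponents count modulo `D`. -/
theorem Dat.zpow_congr (H : Dat L p r R D M) {a : Lˣ} (ha : a ∈ KS L R) {c c' : ℤ}
    (hc : (D : ℤ) ∣ c - c') : (a ^ M) ^ c = (a ^ M) ^ c' := by
  obtain ⟨k, hk⟩ := hc
  have h1 : c = c' + D * k := by linarith
  rw [h1, zpow_add, zpow_mul, zpow_natCast, ← pow_mul, mul_comm M D, (H.mem_KS').1 ha, one_zpow,
    mul_one]

theorem Dat.bK_congr (H : Dat L p r R D M) (θ : L) {c c' : ℤ}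
    (hc : (D : ℤ) ∣ c - c') : bK ψ θ R M c = bK ψ θ R M c' := by
  unfold bK
  exact sum_congr rfl fun a ha => by rw [H.zpow_congr ha hc]

theorem Dat.bK_frob (H : Dat L p r R D M) (h : Adm p ψ) {θ : L} (hθ : θ + θ ^ R = 1) (c : ℤ) :
    bK ψ θ R M (p * c) = bK ψ θ R M c := by
  unfold bK
  have hmaps : ∀ a ∈ KS L R, a ^ p ∈ KS L R := by
    intro a ha
    rw [H.mem_KS'] at ha ⊢
    rw [← pow_mul, mul_comm p, pow_mul, ha, one_pow]
  have hinj : Set.InjOn (fun a : Lˣ => a ^ p) (KS L R : Set Lˣ) := by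
    intro a _ b _ hab
    have h1 := congrArg Units.val hab
    dsimp only at h1
    rw [Units.val_pow_eq_pow_val, Units.val_pow_eq_pow_val] at h1
    exact Units.ext (frobenius_inj L p (by simpa [frobenius_def] using h1))
  refine sum_nbij (fun a => a ^ p) hmaps hinj ?_ ?_
  · exact surjOn_of_injOn_of_card_le _ (fun a ha => hmaps a ha) hinj le_rfl
  · intro a ha
    have h1 : ψ (θ * ((a ^ p : Lˣ) : L)) = ψ (θ * (a : L)) := by
      rw [Units.val_pow_eq_pow_val]
      exact H.phi_frob h hθ (mem_KS.1 ha)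
    rw [h1, zpow_mul, zpow_natCast, ← pow_mul, mul_comm M p, pow_mul]

theorem Dat.bK_frob_pow (H : Dat L p r R D M) (h : Adm p ψ) {θ : L} (hθ : θ + θ ^ R = 1) (c : ℤ)
    (j : ℕ) : bK ψ θ R M ((p : ℤ) ^ j * c) = bK ψ θ R M c := by
  induction j with
  | zero => rw [pow_zero, one_mul]
  | succ j ih => rw [pow_succ', mul_assoc, H.bK_frob h hθ, ih]

/-- The product of opposite Gauss sums. -/
theorem Dat.bK_mul_neg (H : Dat L p r R D M) (h : Adm p ψ) {θ : L} (hθ : θ + θ ^ R = 1) (c : ℤ) :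
    bK ψ θ R M c * bK ψ θ R M (-c) = single 1 (R : ℂ) - Th L R M c := by
  have hneg : (-1 : Lˣ) ^ M = 1 := by
    ext
    push_cast
    exact H.hneg
  have hm1 : (-1 : Lˣ) ∈ KS L R := by
    rw [H.mem_KS', mul_comm, pow_mul, hneg, one_pow]
  have h1 : bK ψ θ R M c * bK ψ θ R M (-c) =
      ∑ b ∈ KS L R, ∑ x ∈ KS L R,
        (single ((x ^ M) ^ c) (ψ (θ * (((x : L) + 1) * (b : L)))) : MonoidAlgebra ℂ Lˣ) := by
    unfold bK
    rw [mul_comm, sum_mul_sum]
    refine sum_congr rfl fun b hb => ?_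
    refine (sum_nbij' (fun x => x * b) (fun a => a * b⁻¹) ?_ ?_ ?_ ?_ ?_).symm
    · intro x hx
      exact mul_mem_KS hx hb
    · intro a ha
      exact mul_mem_KS ha (inv_mem_KS hb)
    · intro x _
      exact mul_inv_cancel_right x b
    · intro a _
      exact inv_mul_cancel_right a b
    · intro x _
      rw [single_mul_single, ← AddChar.map_add_eq_mul, mul_pow, mul_zpow, zpow_neg,
        mul_comm ((b ^ M) ^ c)⁻¹, mul_inv_cancel_right]
      congr 2
      push_cast
      ring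
  rw [h1, sum_comm]
  have h2 : ∀ x ∈ KS L R, ∑ b ∈ KS L R,
      (single ((x ^ M) ^ c) (ψ (θ * (((x : L) + 1) * (b : L)))) : MonoidAlgebra ℂ Lˣ) =
      (if x = -1 then single 1 (R : ℂ) else 0) - single ((x ^ M) ^ c) 1 := by
    intro x hx
    have h3 : ∑ b ∈ KS L R,
        (single ((x ^ M) ^ c) (ψ (θ * (((x : L) + 1) * (b : L)))) : MonoidAlgebra ℂ Lˣ) =
        singleAddHom ((x ^ M) ^ c) (∑ b ∈ KS L R, ψ (θ * (((x : L) + 1) * (b : L)))) := by
      rw [map_sum]
      rfl
    have h4 : (x : L) + 1 ∈ KF L R :=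
      H.add_mem (mem_KF.2 (mem_KS.1 hx)) (mem_KF.2 (one_pow _))
    rw [h3, H.sum_phi_units h hθ h4]
    by_cases hx1 : x = -1
    · have h5 : (x : L) + 1 = 0 := by
        rw [hx1]
        push_cast
        ring
      rw [if_pos hx1, if_pos h5, map_sub, hx1, hneg, one_zpow]
      rfl
    · have h5 : (x : L) + 1 ≠ 0 := by
        intro h6
        apply hx1
        ext
        push_cast
        linear_combination h6
      rw [if_neg hx1, if_neg h5, map_sub, map_zero]
      rfl
  rw [sum_congr rfl h2, sum_sub_distrib, sum_ite_eq' (KS L R) (-1 : Lˣ), if_pos hm1]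
  rfl

/-- `Θ` absorbs the group elements. -/
theorem Dat.Th_mul_single (H : Dat L p r R D M) {c : ℤ} (hc : IsCoprime c (D : ℤ)) {s : Lˣ}
    (hs : s ∈ KS L R) (c' : ℤ) : Th L R M c * single ((s ^ M) ^ c') 1 = Th L R M c := by
  obtain ⟨b, k, hbk⟩ := hc
  unfold Th
  rw [sum_mul]
  have hs' : (s ^ (c' * b)) ∈ KS L R := by
    rw [H.mem_KS', ← zpow_natCast, ← zpow_mul, mul_comm, zpow_mul, zpow_natCast,
      (H.mem_KS').1 hs, one_zpow]
  refine sum_nbij' (fun x => x * s ^ (c' * b)) (fun x => x * (s ^ (c' * b))⁻¹) ?_ ?_ ?_ ?_ ?_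
  · intro x hx
    exact mul_mem_KS hx hs'
  · intro x hx
    exact mul_mem_KS hx (inv_mem_KS hs')
  · intro x _
    exact mul_inv_cancel_right x _
  · intro x _
    exact inv_mul_cancel_right x _
  · intro x _
    rw [single_mul_single, mul_one, mul_pow, mul_zpow]
    congr 2
    have h1 : ((s ^ (c' * b)) ^ M) ^ c = (s ^ M) ^ (c' * b * c) := by
      rw [← zpow_natCast, ← zpow_mul, ← zpow_mul, ← zpow_natCast s M, ← zpow_mul]
      congr 1
      ring
    rw [h1]
    refine H.zpow_congr hs ⟨c' * k, ?_⟩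
    linear_combination -c' * hbk

theorem Dat.Th_mul (H : Dat L p r R D M) {c : ℤ} (hc : IsCoprime c (D : ℤ)) (c' : ℤ) :
    Th L R M c * Th L R M c' = (D * M : ℕ) • Th L R M c := by
  have h1 : Th L R M c' = ∑ a ∈ KS L R, single ((a ^ M) ^ c') (1 : ℂ) := rfl
  rw [h1, mul_sum, sum_congr rfl fun s hs => H.Th_mul_single hc hs c', sum_const, H.card_KS]

theorem Dat.Th_eq (H : Dat L p r R D M) {c : ℤ} (hc : IsCoprime c (D : ℤ)) :
    Th L R M c = Th L R M 1 := by
  have h1 := H.Th_mul hc 1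
  have h2 := H.Th_mul (isCoprime_one_left : IsCoprime (1 : ℤ) (D : ℤ)) c
  rw [mul_comm, h1] at h2
  have h3 : ((D * M : ℕ) : ℂ) ≠ 0 := Nat.cast_ne_zero.2 (by have := H.DM_pos; omega)
  rw [← Nat.cast_smul_eq_nsmul ℂ, ← Nat.cast_smul_eq_nsmul ℂ] at h2
  exact smul_right_injective _ h3 h2

end SHC
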