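import Pool.Agent.SHC.Count
import Pool.Agent.SHC.HD

/-!
# SHC.Loop: exponential sums along a loop

For `D = |∑ j < m, (-e) ^ j|` and `-1 ∈ ⟨p, -e⟩` modulo `D`, the sum over `t ≠ 0` and
`x : Fin m → L` of `ψ (t (x_0 ^ e x_1 + ⋯ + x_(m-1) ^ e x_0))` is computed.
-/

namespace SHC

open Finset

variable {L : Type*} [Field L] [Fintype L] [DecidableEq L] {p : ℕ} {ψ : AddChar L ℂ}
  [Fact p.Prime] [CharP L p] {r R D M : ℕ}

theorem sum_units_psi (h : Adm p ψ) : ∑ s : Lˣ, ψ (s : L) = -1 := by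
  have h1 := AddChar.sum_mulShift (1 : L) h.prim
  rw [if_neg one_ne_zero, sum_units] at h1
  simp only [mul_one, AddChar.map_zero_eq_one, Nat.cast_zero] at h1
  linear_combination h1

theorem sum_units_psi_mul (h : Adm p ψ) (c : Lˣ) : ∑ s : Lˣ, ψ ((c * s : Lˣ) : L) = -1 := by
  rw [← sum_units_psi h]
  exact Equiv.sum_comp (Equiv.mulLeft c) (fun s : Lˣ => ψ (s : L))

/-- The kernel on the torus. -/
noncomputable def GG (ψ : AddChar L ℂ) (e : ℕ) : ℕ → Lˣ → ℂ
  | 0, w => if w = 1 then 1 else 0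
  | (k + 1), w => ∑ s : Lˣ, ψ (s : L) * GG ψ e k (w * s ^ ((-(e : ℤ)) ^ k))

/-- The sums of the kernel over the `D`-th powers. -/
noncomputable def GH (ψ : AddChar L ℂ) (e D k : ℕ) (w : Lˣ) : ℂ :=
  ∑ v : Lˣ, ind D 1 v * GG ψ e k (w * v⁻¹)

theorem GH_zero (ψ : AddChar L ℂ) (e : ℕ) (w : Lˣ) : GH ψ e D 0 w = ind D 1 w := by
  unfold GH
  rw [sum_eq_single w]
  · rw [GG, mul_inv_cancel, if_pos rfl, mul_one]
  · intro v _ hv
    rw [GG, if_neg, mul_zero]
    rw [mul_inv_eq_one]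
    exact fun h => hv h.symm
  · exact fun h => absurd (mem_univ _) h

theorem GH_succ (ψ : AddChar L ℂ) (e k : ℕ) (w : Lˣ) : GH ψ e D (k + 1) w =
    ∑ s : Lˣ, ψ (s : L) * GH ψ e D k (w * s ^ ((-(e : ℤ)) ^ k)) := by
  unfold GH
  simp only [GG, mul_sum]
  rw [sum_comm]
  refine sum_congr rfl fun s _ => sum_congr rfl fun v _ => ?_
  rw [mul_right_comm w v⁻¹]
  ring

omit [Fact p.Prime] [CharP L p] in
theorem Dat.NN_eq (H : Dat L p r R D M) : NN L D 1 = (R + 1) * M := by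
  unfold NN
  rw [pow_one, ← H.card_units, mul_assoc, mul_comm M]
  exact Nat.mul_div_cancel_left _ H.D_pos

omit [Fact p.Prime] [CharP L p] in
theorem Dat.sum_ind (H : Dat L p r R D M) (f : Lˣ → ℂ) :
    (D : ℂ) * ∑ w, ind D 1 w * f w = ∑ y : Lˣ, f (y ^ D) := by
  have hN : D * NN L D 1 = Fintype.card Lˣ := by
    rw [H.NN_eq, ← H.card_units]
    ring
  rw [sum_pow_eq hN f]
  congr 1
  refine sum_congr rfl fun w _ => ?_
  unfold ind
  by_cases h : w ^ NN L D 1 = 1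
  · rw [if_pos h, if_pos h, one_mul]
  · rw [if_neg h, if_neg h, zero_mul]

omit [Fact p.Prime] [CharP L p] in
theorem Dat.GH_coeff (H : Dat L p r R D M) (ψ : AddChar L ℂ) (e k : ℕ) (w : Lˣ) :
    GH ψ e D k w = (∏ j ∈ range k, aL ψ R M ((-(e : ℤ)) ^ j)).coeff
      ((w ^ ((R + 1) * M))⁻¹) := by
  induction k generalizing w with
  | zero =>
    rw [GH_zero, prod_range_zero, MonoidAlgebra.one_def, MonoidAlgebra.coeff_single,
      Finsupp.single_apply]
    unfold ind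
    rw [H.NN_eq]
    refine if_congr ?_ rfl rfl
    rw [eq_comm, eq_inv_iff_mul_eq_one, one_mul]
    exact eq_comm
  | succ k ih =>
    rw [GH_succ, prod_range_succ, aL, mul_sum, MonoidAlgebra.coeff_sum, Finsupp.finsetSum_apply]
    refine sum_congr rfl fun s _ => ?_
    rw [ih, MonoidAlgebra.coeff_mul_single_apply, mul_comm]
    congr 2
    rw [mul_pow, mul_inv, ← zpow_natCast (s ^ ((-(e : ℤ)) ^ k)), ← zpow_mul,
      mul_comm ((-(e : ℤ)) ^ k), zpow_mul, zpow_natCast]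

/-! ### The product of the Gauss sums -/

/-- Products over a period. -/
theorem prod_shift {A : Type*} [CommMonoid A] (F : ℕ → A) {m : ℕ} (hF : ∀ k, F (k + m) = F k)
    (i : ℕ) : ∏ k ∈ range m, F (k + i) = ∏ k ∈ range m, F k := by
  induction i with
  | zero => rfl
  | succ i ih =>
    rw [← ih]
    rcases m with _ | m
    · rfl
    · rw [prod_range_succ, prod_range_succ' (fun k => F (k + i))]
      have h1 : F (m + (i + 1)) = F (0 + i) := by
        rw [← hF (0 + i)]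
        congr 1
        ring
      rw [h1]
      congr 1
      refine prod_congr rfl fun k _ => ?_
      congr 1
      ring

theorem Dat.prod_bK (H : Dat L p r R D M) (h : Adm p ψ) {θ : L} (hθ : θ + θ ^ R = 1) {c : ℤ}
    (hc : IsCoprime c (D : ℤ)) {m ν i : ℕ} (hm : (D : ℤ) ∣ c ^ m - 1)
    (hν : (D : ℤ) ∣ (p : ℤ) ^ ν * c ^ i + 1) :
    (∏ k ∈ range m, bK ψ θ R M (c ^ k)) ^ 2 =
      ((R : ℂ) • (1 : MonoidAlgebra ℂ Lˣ) - Th L R M 1) ^ m := by
  have hF : ∀ k, bK ψ θ R M (c ^ (k + m)) = bK ψ θ R M (c ^ k) := by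
    intro k
    refine H.bK_congr θ ?_
    have e1 : c ^ (k + m) - c ^ k = c ^ k * (c ^ m - 1) := by ring
    rw [e1]
    exact hm.mul_left _
  have hneg : ∀ k, bK ψ θ R M (c ^ (k + i)) = bK ψ θ R M (-(c ^ k)) := by
    intro k
    rw [← H.bK_frob_pow h hθ _ ν]
    refine H.bK_congr θ ?_
    have e1 : (p : ℤ) ^ ν * c ^ (k + i) - -(c ^ k) = c ^ k * ((p : ℤ) ^ ν * c ^ i + 1) := by ring
    rw [e1]
    exact hν.mul_left _
  rw [pow_two]
  nth_rewrite 2 [← prod_shift (fun k => bK ψ θ R M (c ^ k)) hF i]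
  rw [← prod_mul_distrib]
  have h1 : ∀ k ∈ range m, bK ψ θ R M (c ^ k) * bK ψ θ R M (c ^ (k + i)) =
      (R : ℂ) • (1 : MonoidAlgebra ℂ Lˣ) - Th L R M 1 := by
    intro k _
    rw [hneg, H.bK_mul_neg h hθ, H.Th_eq (IsCoprime.pow_left hc), MonoidAlgebra.one_def,
      MonoidAlgebra.smul_single, smul_eq_mul, mul_one]
  rw [prod_congr rfl h1, prod_const, card_range]

theorem alg_pow {A : Type*} [CommRing A] [Algebra ℂ A] (Θ : A) (R : ℂ)
    (hΘ : Θ * Θ = (R - 1) • Θ) (m : ℕ) :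
    (R • (1 : A) - Θ) ^ m = R ^ m • (1 : A) - (∑ j ∈ range m, R ^ j) • Θ := by
  induction m with
  | zero => simp
  | succ m ih =>
    rw [pow_succ, ih, sum_range_succ, mul_sub, sub_mul, sub_mul, mul_smul_comm, mul_one,
      mul_smul_comm, mul_one, smul_mul_assoc, one_mul, smul_mul_assoc, hΘ]
    module

theorem Dat.coeff_Th (H : Dat L p r R D M) : (Th L R M 1).coeff 1 = (M : ℂ) := by
  unfold Th
  rw [MonoidAlgebra.coeff_sum, Finsupp.finsetSum_apply]
  have hM : M * (D * (R + 1)) = Fintype.card Lˣ := by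
    rw [← H.card_units]
    ring
  have h1 : ∀ a ∈ KS L R, (MonoidAlgebra.single ((a ^ M) ^ (1 : ℤ)) (1 : ℂ)).coeff 1 =
      if a ^ M = 1 then 1 else 0 := by
    intro a _
    rw [MonoidAlgebra.coeff_single, Finsupp.single_apply, zpow_one]
  rw [sum_congr rfl h1, ← sum_filter, sum_const, nsmul_eq_mul, mul_one]
  have h2 : (KS L R).filter (fun a => a ^ M = 1) = univ.filter fun a : Lˣ => a ^ M = 1 := by
    ext a
    rw [mem_filter, mem_filter]
    constructor
    · exact fun h => ⟨mem_univ _, h.2⟩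
    · intro h
      refine ⟨?_, h.2⟩
      rw [H.mem_KS', mul_comm, pow_mul, h.2, one_pow]
  rw [h2, card_pow_one hM]

theorem Dat.GH_one (H : Dat L p r R D M) (h : Adm p ψ) {e m ν i : ℕ}
    (he : IsCoprime (e : ℤ) (D : ℤ)) (hm : (D : ℤ) ∣ (-(e : ℤ)) ^ m - 1)
    (hν : (D : ℤ) ∣ (p : ℤ) ^ ν * (-(e : ℤ)) ^ i + 1) :
    (D : ℂ) * GH ψ e D m 1 = (-1) ^ m + (D - 1) * (-(R : ℂ)) ^ m := by
  obtain ⟨θ, hθ⟩ := H.exists_theta
  have h1 : ∏ j ∈ range m, aL ψ R M ((-(e : ℤ)) ^ j) =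
      (-1) ^ m * ((R : ℂ) • (1 : MonoidAlgebra ℂ Lˣ) - Th L R M 1) ^ m := by
    rw [← H.prod_bK h hθ (IsCoprime.neg_left he) hm hν]
    simp only [H.hasse_davenport h hθ]
    rw [prod_neg, card_range, prod_pow]
  have hR : (R : ℂ) = D * M + 1 := by
    rw [← H.hD]
    push_cast
    ring
  have h2 : Th L R M 1 * Th L R M 1 = ((R : ℂ) - 1) • Th L R M 1 := by
    rw [H.Th_mul (isCoprime_one_left : IsCoprime (1 : ℤ) (D : ℤ)), ← Nat.cast_smul_eq_nsmul ℂ]
    congr 1
    rw [hR]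
    push_cast
    ring
  rw [H.GH_coeff, h1, alg_pow _ _ h2, one_pow, inv_one]
  have h3 : (-1 : MonoidAlgebra ℂ Lˣ) ^ m = ((-1 : ℂ) ^ m) • (1 : MonoidAlgebra ℂ Lˣ) := by
    have h4 : (-1 : MonoidAlgebra ℂ Lˣ) = (-1 : ℂ) • (1 : MonoidAlgebra ℂ Lˣ) := by
      rw [neg_smul, one_smul]
    rw [h4, smul_pow, one_pow]
  rw [h3, smul_mul_assoc, one_mul, MonoidAlgebra.coeff_smul, MonoidAlgebra.coeff_sub,
    MonoidAlgebra.coeff_smul, MonoidAlgebra.coeff_smul]
  have h5 : (1 : MonoidAlgebra ℂ Lˣ).coeff 1 = 1 := MonoidAlgebra.coeff_one_one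
  have h6 := H.coeff_Th
  simp only [Finsupp.smul_apply, Finsupp.sub_apply, h5, h6, smul_eq_mul]
  have h7 : (∑ j ∈ range m, (R : ℂ) ^ j) * ((D : ℂ) * M) = (R : ℂ) ^ m - 1 := by
    have := geom_sum_mul (R : ℂ) m
    rw [← this, hR]
    ring
  have h8 : (-(R : ℂ)) ^ m = (-1) ^ m * (R : ℂ) ^ m := neg_pow _ _
  rw [h8]
  linear_combination -(-1 : ℂ) ^ m * h7

/-- The sums over the torus. -/
noncomputable def WU (ψ : AddChar L ℂ) (e : ℕ) (t : Lˣ) (f : Lˣ → ℂ) : ℕ → Lˣ → ℂ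
  | 0, y => f y
  | (k + 1), y => ∑ x : Lˣ, ψ ((t * (y ^ e * x) : Lˣ) : L) * WU ψ e t f k x

/-- `σ k = ∑ j < k, (-e) ^ j` -/
def sg (e k : ℕ) : ℤ := ∑ j ∈ range k, (-(e : ℤ)) ^ j

theorem sg_mul (e k : ℕ) : ((e : ℤ) + 1) * sg e k = 1 - (-(e : ℤ)) ^ k := by
  unfold sg
  have := mul_geom_sum (-(e : ℤ)) k
  linear_combination -this

theorem WU_eq (ψ : AddChar L ℂ) (e : ℕ) (t z : Lˣ) (k : ℕ) (y : Lˣ) :
    WU ψ e t (fun x => if x = z then 1 else 0) k y =
      GG ψ e k (y ^ ((-(e : ℤ)) ^ k) * z⁻¹ * (t ^ sg e k)⁻¹) := by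
  induction k generalizing y with
  | zero =>
    rw [WU, GG]
    simp only [pow_zero, zpow_one, sg, range_zero, sum_empty, zpow_zero, inv_one, mul_one]
    exact if_congr (mul_inv_eq_one).symm rfl rfl
  | succ k ih =>
    rw [WU, GG]
    rw [← Equiv.sum_comp (Equiv.mulRight ((t * y ^ e)⁻¹))
      (fun x : Lˣ => ψ ((t * (y ^ e * x) : Lˣ) : L) *
        WU ψ e t (fun x => if x = z then 1 else 0) k x)]
    refine sum_congr rfl fun s _ => ?_
    rw [Equiv.coe_mulRight, ih]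
    have e1 : t * (y ^ e * (s * (t * y ^ e)⁻¹)) = s := by
      calc t * (y ^ e * (s * (t * y ^ e)⁻¹)) = s * ((t * y ^ e) * (t * y ^ e)⁻¹) := by ac_rfl
        _ = s := by rw [mul_inv_cancel, mul_one]
    have e2 : (s * (t * y ^ e)⁻¹) ^ ((-(e : ℤ)) ^ k) * z⁻¹ * (t ^ sg e k)⁻¹ =
        y ^ ((-(e : ℤ)) ^ (k + 1)) * z⁻¹ * (t ^ sg e (k + 1))⁻¹ * s ^ ((-(e : ℤ)) ^ k) := by
      have e3 : sg e (k + 1) = (-(e : ℤ)) ^ k + sg e k := by
        unfold sg
        rw [sum_range_succ, add_comm]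
      have e4 : ((-(e : ℤ)) ^ (k + 1)) = -(e : ℤ) * (-(e : ℤ)) ^ k := by ring
      rw [e3, e4, mul_zpow, inv_zpow, mul_zpow, zpow_add, zpow_mul, zpow_neg, zpow_natCast,
        inv_zpow]
      generalize (-(e : ℤ)) ^ k = c
      rw [mul_inv, mul_inv]
      generalize (t ^ c)⁻¹ = A
      generalize ((y ^ e) ^ c)⁻¹ = B
      generalize (t ^ sg e k)⁻¹ = C
      generalize z⁻¹ = E
      generalize s ^ c = S
      rw [mul_comm A B, ← mul_assoc S B A, mul_comm S B]
      simp only [mul_assoc]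
      congr 1
      rw [mul_left_comm E A, mul_left_comm S A, mul_comm C S, mul_left_comm E S]
    rw [e1, e2]

/-- The trace over the torus, summed over the frequencies. -/
theorem Dat.torus (H : Dat L p r R D M) (h : Adm p ψ) {e m ν i : ℕ}
    (he : IsCoprime (e : ℤ) (D : ℤ)) (hs : (sg e m).natAbs = D)
    (hν : (D : ℤ) ∣ (p : ℤ) ^ ν * (-(e : ℤ)) ^ i + 1) :
    ∑ t : Lˣ, ∑ z : Lˣ, WU ψ e t (fun x => if x = z then 1 else 0) m z =
      ((Fintype.card Lˣ : ℕ) : ℂ) * ((-1) ^ m + (D - 1) * (-(R : ℂ)) ^ m) := by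
  have h1 : ∀ t z : Lˣ, WU ψ e t (fun x => if x = z then 1 else 0) m z =
      GG ψ e m (((z ^ (e + 1) * t) ^ sg e m)⁻¹) := by
    intro t z
    rw [WU_eq]
    congr 1
    have e1 : (-(e : ℤ)) ^ m = 1 - ((e : ℤ) + 1) * sg e m := by
      have := sg_mul e m
      linarith
    have e2 : ((e : ℤ) + 1) = ((e + 1 : ℕ) : ℤ) := by push_cast; rfl
    rw [e1, e2, zpow_sub, zpow_one, zpow_mul, zpow_natCast, mul_zpow, mul_inv]
    rw [mul_comm z, mul_inv_cancel_right]
  have h2 : ∀ z : Lˣ, ∑ t : Lˣ, GG ψ e m (((z ^ (e + 1) * t) ^ sg e m)⁻¹) =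
      ∑ w : Lˣ, GG ψ e m ((w ^ sg e m)⁻¹) := fun z =>
    Equiv.sum_comp (Equiv.mulLeft (z ^ (e + 1))) (fun w : Lˣ => GG ψ e m ((w ^ sg e m)⁻¹))
  have h3 : ∑ w : Lˣ, GG ψ e m ((w ^ sg e m)⁻¹) = ∑ w : Lˣ, GG ψ e m (w ^ D) := by
    rcases Int.natAbs_eq (sg e m) with h4 | h4
    · rw [hs] at h4
      rw [h4, ← Equiv.sum_comp (Equiv.inv Lˣ) (fun w : Lˣ => GG ψ e m (w ^ D))]
      refine sum_congr rfl fun w _ => ?_
      rw [Equiv.inv_apply, zpow_natCast, inv_pow]
    · rw [hs] at h4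
      rw [h4]
      refine sum_congr rfl fun w _ => ?_
      rw [zpow_neg, inv_inv, zpow_natCast]
  have h5 := H.sum_ind (GG ψ e m)
  have h6 : GH ψ e D m 1 = ∑ w : Lˣ, ind D 1 w * GG ψ e m w := by
    unfold GH
    rw [← Equiv.sum_comp (Equiv.inv Lˣ) (fun w : Lˣ => ind D 1 w * GG ψ e m w)]
    refine sum_congr rfl fun w _ => ?_
    rw [Equiv.inv_apply, one_mul]
    congr 1
    unfold ind
    rw [inv_pow]
    exact if_congr inv_eq_one.symm rfl rfl
  have hm : (D : ℤ) ∣ (-(e : ℤ)) ^ m - 1 := by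
    have h8 : (D : ℤ) ∣ sg e m := by
      rw [← hs]
      exact Int.natAbs_dvd.2 dvd_rfl
    have h9 : (-(e : ℤ)) ^ m - 1 = -((e : ℤ) + 1) * sg e m := by
      have := sg_mul e m
      linear_combination this
    rw [h9]
    exact h8.mul_left _
  have h7 := H.GH_one h he hm hν
  rw [h6, h5] at h7
  simp only [h1]
  rw [sum_comm]
  simp only [h2]
  rw [h3, h7, sum_const, card_univ, nsmul_eq_mul]

/-- The sums over the field. -/
noncomputable def W (ψ : AddChar L ℂ) (e : ℕ) (t : L) (f : L → ℂ) : ℕ → L → ℂ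
  | 0, y => f y
  | (k + 1), y => ∑ x : L, ψ (t * (y ^ e * x)) * W ψ e t f k x

theorem W_sum (ψ : AddChar L ℂ) (e : ℕ) (t : L) {ι : Type*} (s : Finset ι) (f : ι → L → ℂ)
    (k : ℕ) (y : L) : ∑ z ∈ s, W ψ e t (f z) k y = W ψ e t (fun x => ∑ z ∈ s, f z x) k y := by
  induction k generalizing y with
  | zero => rfl
  | succ k ih =>
    simp only [W]
    rw [sum_comm]
    refine sum_congr rfl fun x _ => ?_
    rw [← mul_sum, ih]

theorem W_succ' (ψ : AddChar L ℂ) (e : ℕ) (t : L) (f : L → ℂ) (k : ℕ) (y : L) :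
    W ψ e t f (k + 1) y = W ψ e t (fun y => ∑ x : L, ψ (t * (y ^ e * x)) * f x) k y := by
  induction k generalizing y with
  | zero => rfl
  | succ k ih =>
    rw [W]
    simp only [ih]
    rfl

/-- The recursion of the constants. -/
def cs (A : ℕ → ℂ) : ℕ → ℂ
  | 0 => 0
  | (k + 1) => A k - cs A k

theorem cs_sum {ι : Type*} (s : Finset ι) (A : ι → ℕ → ℂ) (k : ℕ) :
    ∑ z ∈ s, cs (A z) k = cs (fun k => ∑ z ∈ s, A z k) k := by
  induction k with
  | zero => simp [cs]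
  | succ k ih => simp only [cs, sum_sub_distrib, ih]

theorem W_unit (h : Adm p ψ) {e : ℕ} (t : Lˣ) (f : L → ℂ) (k : ℕ) (y : Lˣ) :
    W ψ e (t : L) f k (y : L) =
      WU ψ e t (fun x => f x) k y + cs (fun k => W ψ e (t : L) f k 0) k := by
  induction k generalizing y with
  | zero => simp [W, WU, cs]
  | succ k ih =>
    rw [W, sum_units, mul_zero, mul_zero, AddChar.map_zero_eq_one, one_mul]
    simp only [ih]
    rw [cs, WU]
    have h1 : ∀ x : Lˣ, ψ ((t : L) * ((y : L) ^ e * (x : L))) = ψ ((t * (y ^ e * x) : Lˣ) : L) := by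
      intro x
      rw [Units.val_mul, Units.val_mul, Units.val_pow_eq_pow_val]
    simp only [h1, mul_add, sum_add_distrib]
    rw [← sum_mul]
    have h2 : ∑ x : Lˣ, ψ ((t * (y ^ e * x) : Lˣ) : L) = -1 := by
      rw [← sum_units_psi_mul h (t * y ^ e)]
      refine sum_congr rfl fun x _ => ?_
      rw [mul_assoc]
    rw [h2]
    ring

theorem W_step (h : Adm p ψ) {e : ℕ} (he : e ≠ 0) (t : Lˣ) (α β : ℂ) (y : L) :
    ∑ x : L, ψ ((t : L) * (y ^ e * x)) * ((if x = 0 then α else 0) + β) =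
      (if y = 0 then ((Fintype.card L : ℕ) : ℂ) * β else 0) + α := by
  have h1 : ∀ x : L, ψ ((t : L) * (y ^ e * x)) * ((if x = 0 then α else 0) + β) =
      (if x = 0 then α else 0) + β * ψ (x * (t * y ^ e)) := by
    intro x
    have e1 : (t : L) * (y ^ e * x) = x * (t * y ^ e) := by ring
    rw [e1]
    by_cases hx : x = 0
    · rw [if_pos hx, hx, zero_mul, AddChar.map_zero_eq_one]
      ring
    · rw [if_neg hx]
      ring
  rw [sum_congr rfl fun x _ => h1 x, sum_add_distrib, ← mul_sum, AddChar.sum_mulShift _ h.prim]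
  rw [Finset.sum_ite_eq' univ (0 : L) (fun _ => α), if_pos (mem_univ _)]
  by_cases hy : y = 0
  · rw [if_pos hy, hy, zero_pow he, mul_zero, if_pos rfl]
    ring
  · rw [if_neg hy, if_neg (mul_ne_zero t.ne_zero (pow_ne_zero _ hy))]
    push_cast
    ring

theorem W_two (h : Adm p ψ) {e : ℕ} (he : e ≠ 0) (t : Lˣ) (α β : ℂ) (k : ℕ) (y : L) :
    W ψ e (t : L) (fun x => (if x = 0 then α else 0) + β) (2 * k) y =
      ((Fintype.card L : ℕ) : ℂ) ^ k * ((if y = 0 then α else 0) + β) := by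
  induction k generalizing y with
  | zero => simp [W]
  | succ k ih =>
    have e0 : 2 * (k + 1) = 2 * k + 1 + 1 := by ring
    rw [e0, W]
    simp only [W, ih]
    have h1 : ∀ x : L, ∑ x' : L, ψ ((t : L) * (x ^ e * x')) *
        (((Fintype.card L : ℕ) : ℂ) ^ k * ((if x' = 0 then α else 0) + β)) =
        ((Fintype.card L : ℕ) : ℂ) ^ k *
          ((if x = 0 then ((Fintype.card L : ℕ) : ℂ) * β else 0) + α) := by
      intro x
      rw [← W_step h he t α β x, mul_sum]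
      refine sum_congr rfl fun x' _ => ?_
      ring
    simp only [h1]
    have h2 : ∑ x : L, ψ ((t : L) * (y ^ e * x)) * (((Fintype.card L : ℕ) : ℂ) ^ k *
          ((if x = 0 then ((Fintype.card L : ℕ) : ℂ) * β else 0) + α)) =
        ((Fintype.card L : ℕ) : ℂ) ^ k *
        ((if y = 0 then ((Fintype.card L : ℕ) : ℂ) * α else 0) +
          ((Fintype.card L : ℕ) : ℂ) * β) := by
      rw [← W_step h he t _ α y, mul_sum]
      refine sum_congr rfl fun x' _ => ?_
      ring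
    rw [h2]
    by_cases hy : y = 0
    · rw [if_pos hy, if_pos hy]
      ring
    · rw [if_neg hy, if_neg hy]
      ring

theorem W_odd (h : Adm p ψ) {e : ℕ} (he : e ≠ 0) (t : Lˣ) (α β : ℂ) (k : ℕ) (y : L) :
    W ψ e (t : L) (fun x => (if x = 0 then α else 0) + β) (2 * k + 1) y =
      ((Fintype.card L : ℕ) : ℂ) ^ k *
        ((if y = 0 then ((Fintype.card L : ℕ) : ℂ) * β else 0) + α) := by
  rw [W]
  simp only [W_two h he]
  rw [← W_step h he t α β y, mul_sum]
  refine sum_congr rfl fun x' _ => ?_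
  ring

/-- The part of the trace which does not come from the torus. -/
noncomputable def rest (q : ℂ) (m : ℕ) : ℂ := if Even m then 2 * q ^ (m / 2) - 1 else 1

theorem trace_eq (h : Adm p ψ) {e : ℕ} (he : e ≠ 0) (t : Lˣ) (m : ℕ) :
    ∑ z : L, W ψ e (t : L) (fun x => if x = z then 1 else 0) m z =
      rest ((Fintype.card L : ℕ) : ℂ) m +
        ∑ z : Lˣ, WU ψ e t (fun x => if x = z then 1 else 0) m z := by
  set q : ℂ := ((Fintype.card L : ℕ) : ℂ) with hq
  rw [sum_units]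
  simp only [W_unit h]
  rw [sum_add_distrib, cs_sum]
  have h1 : ∀ z : Lˣ, (fun x : Lˣ => if (x : L) = (z : L) then (1 : ℂ) else 0) =
      fun x => if x = z then 1 else 0 := by
    intro z
    funext x
    exact if_congr Units.val_inj rfl rfl
  simp only [h1]
  -- the constants
  have h2 : ∀ k : ℕ, ∑ z : Lˣ, W ψ e (t : L) (fun x => if x = (z : L) then 1 else 0) k 0 =
      W ψ e (t : L) (fun x => (if x = 0 then -1 else 0) + 1) k 0 := by
    intro k
    rw [W_sum]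
    congr 1
    funext x
    by_cases hx : x = 0
    · rw [if_pos hx, hx, sum_eq_zero]
      · ring
      · intro z _
        rw [if_neg z.ne_zero.symm]
    · rw [if_neg hx, sum_eq_single (Units.mk0 x hx)]
      · simp
      · intro z _ hz
        rw [if_neg]
        intro h3
        apply hz
        ext
        rw [← h3]
        rfl
      · exact fun h => absurd (mem_univ _) h
  have h3 : ∀ k : ℕ, cs (fun k => ∑ z : Lˣ,
        W ψ e (t : L) (fun x => if x = (z : L) then 1 else 0) k 0) (2 * k) = q ^ k - 1 ∧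
      cs (fun k => ∑ z : Lˣ,
        W ψ e (t : L) (fun x => if x = (z : L) then 1 else 0) k 0) (2 * k + 1) =
        -(q ^ k - 1) := by
    intro k
    induction k with
    | zero =>
      constructor
      · simp [cs]
      · have h4 := h2 0
        simp only [W] at h4
        simp only [cs, W]
        rw [sum_eq_zero]
        · simp
        · intro x _
          rw [if_neg x.ne_zero.symm]
    | succ k ih =>
      have e0 : 2 * (k + 1) = 2 * k + 1 + 1 := by ring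
      have h5 : cs (fun k => ∑ z : Lˣ,
        W ψ e (t : L) (fun x => if x = (z : L) then 1 else 0) k 0) (2 * (k + 1)) =
          q ^ (k + 1) - 1 := by
        rw [e0, cs, ih.2, h2, W_odd h he, if_pos rfl, ← hq]
        ring
      refine ⟨h5, ?_⟩
      rw [cs, h5, h2, W_two h he, if_pos rfl]
      ring
  have h6 : W ψ e (t : L) (fun x => if x = 0 then 1 else 0) m 0 =
      W ψ e (t : L) (fun x => (if x = 0 then 1 else 0) + 0) m 0 := by
    simp only [add_zero]
  rw [h6]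
  unfold rest
  rcases Nat.even_or_odd' m with ⟨k, hk | hk⟩
  · rw [hk, (h3 k).1, W_two h he, if_pos rfl, if_pos (even_two_mul k),
      Nat.mul_div_cancel_left _ (by norm_num)]
    ring
  · rw [hk, (h3 k).2, W_odd h he, if_pos rfl,
      if_neg (Nat.not_even_iff_odd.2 (odd_two_mul_add_one k))]
    ring

/-- The total sum. -/
theorem Dat.total_loop (H : Dat L p r R D M) (h : Adm p ψ) {e m ν i : ℕ} (he0 : 1 ≤ e)
    (he : IsCoprime (e : ℤ) (D : ℤ)) (hs : (sg e m).natAbs = D)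
    (hν : (D : ℤ) ∣ (p : ℤ) ^ ν * (-(e : ℤ)) ^ i + 1) :
    ∑ t : Lˣ, ∑ z : L, W ψ e (t : L) (fun x => if x = z then 1 else 0) m z =
      ((R : ℂ) ^ 2 - 1) * R ^ m * (1 - (sg e m : ℤ)) := by
  have hcard : ((Fintype.card Lˣ : ℕ) : ℂ) = (R : ℂ) ^ 2 - 1 := by
    rw [Fintype.card_units, H.hcard, Nat.cast_sub]
    · push_cast
      ring
    · have hR1 := H.two_le
      nlinarith
  have hq : ((Fintype.card L : ℕ) : ℂ) = (R : ℂ) ^ 2 := by
    rw [H.hcard]
    push_cast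
    ring
  simp only [trace_eq h (by omega : e ≠ 0)]
  rw [sum_add_distrib, H.torus h he hs hν, sum_const, card_univ, nsmul_eq_mul, hcard, hq]
  have h1 := sg_mul e m
  unfold rest
  rcases Nat.even_or_odd m with hm | hm
  · have h2 : sg e m = -(D : ℤ) := by
      rcases Int.natAbs_eq (sg e m) with h3 | h3
      · rw [hs] at h3
        rw [hm.neg_pow] at h1
        have h4 : (1 : ℤ) ≤ (e : ℤ) ^ m := one_le_pow₀ (by exact_mod_cast he0)
        have h5 : (0 : ℤ) < D := by exact_mod_cast H.D_pos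
        rw [h3] at h1
        nlinarith
      · rw [hs] at h3
        exact h3
    rw [if_pos hm, h2, hm.neg_one_pow, hm.neg_pow, ← pow_mul, Nat.mul_div_cancel' hm.two_dvd]
    push_cast
    ring
  · have h2 : sg e m = (D : ℤ) := by
      rcases Int.natAbs_eq (sg e m) with h3 | h3
      · rw [hs] at h3
        exact h3
      · rw [hs] at h3
        rw [hm.neg_pow] at h1
        have h4 : (1 : ℤ) ≤ (e : ℤ) ^ m := one_le_pow₀ (by exact_mod_cast he0)
        have h5 : (0 : ℤ) < D := by exact_mod_cast H.D_pos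
        rw [h3] at h1
        nlinarith
    rw [if_neg (Nat.not_even_iff_odd.2 hm), h2, hm.neg_one_pow, hm.neg_pow]
    push_cast
    ring

end SHC
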